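import Mathlib

/-! Calculus on the orbit space `ℝ × ℂ` of the Gibbons-Hawking ansatz. -/

namespace Pool.Agent.MP_67f0e4_gt.H73

open Set Filter Topology

noncomputable section

/-- The second derivative as a bilinear form. -/
def D2 {E : Type} [NormedAddCommGroup E] [NormedSpace ℝ E] (F : E → ℝ) (p v w : E) : ℝ :=
  fderiv ℝ (fderiv ℝ F) p v w

section general

variable {E E' : Type} [NormedAddCommGroup E] [NormedSpace ℝ E]
  [NormedAddCommGroup E'] [NormedSpace ℝ E'] {F G : E → ℝ} {p : E}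

lemma hasF2 (h : ContDiffAt ℝ 2 F p) :
    HasFDerivAt (fderiv ℝ F) (fderiv ℝ (fderiv ℝ F) p) p :=
  ((h.fderiv_right (m := 1) (by norm_num)).differentiableAt (by norm_num)).hasFDerivAt

lemma ev_diff (h : ContDiffAt ℝ 2 F p) : ∀ᶠ q in 𝓝 p, DifferentiableAt ℝ F q :=
  (h.eventually (by simp)).mono fun _ hq => hq.differentiableAt (by norm_num)

lemma D2_eq (h : ContDiffAt ℝ 2 F p) (v w : E) {g : E → ℝ} {L : E →L[ℝ] ℝ}
    (hg : ∀ᶠ q in 𝓝 p, fderiv ℝ F q w = g q) (hL : HasFDerivAt g L p) : D2 F p v w = L v := by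
  have h1 := (hasF2 h).clm_apply (hasFDerivAt_const w p)
  have h2 := (hL.congr_of_eventuallyEq hg).unique h1
  rw [h2]
  simp [D2]

lemma D2_symm (h : ContDiffAt ℝ 2 F p) (v w : E) : D2 F p v w = D2 F p w v :=
  (h.isSymmSndFDerivAt (by simp)).eq v w

lemma D2_congr (h : F =ᶠ[𝓝 p] G) (v w : E) : D2 F p v w = D2 G p v w := by
  unfold D2
  rw [h.fderiv.fderiv_eq]

lemma D2_sum {ι : Type} [Fintype ι] {f : ι → E → ℝ} (h : ∀ j, ContDiffAt ℝ 2 (f j) p) (v w : E) :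
    D2 (fun q => ∑ j, f j q) p v w = ∑ j, D2 (f j) p v w := by
  have h0 : ContDiffAt ℝ 2 (fun q => ∑ j, f j q) p := ContDiffAt.sum fun j _ => h j
  have h1 : ∀ᶠ q in 𝓝 p, fderiv ℝ (fun q => ∑ j, f j q) q w = ∑ j, fderiv ℝ (f j) q w := by
    filter_upwards [eventually_all.mpr fun j => ev_diff (h j)] with q hq
    rw [fderiv_fun_sum fun j _ => hq j]
    simp
  rw [D2_eq h0 v w h1 (HasFDerivAt.fun_sum fun j _ =>
    (hasF2 (h j)).clm_apply (hasFDerivAt_const w p))]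
  simp [D2]

lemma D2_add (hF : ContDiffAt ℝ 2 F p) (hG : ContDiffAt ℝ 2 G p) (v w : E) :
    D2 (fun q => F q + G q) p v w = D2 F p v w + D2 G p v w := by
  have h1 : ∀ᶠ q in 𝓝 p, fderiv ℝ (fun q => F q + G q) q w = fderiv ℝ F q w + fderiv ℝ G q w := by
    filter_upwards [ev_diff hF, ev_diff hG] with q h1 h2
    rw [fderiv_fun_add h1 h2]
    simp
  rw [D2_eq (hF.add hG) v w h1 (((hasF2 hF).clm_apply (hasFDerivAt_const w p)).add
    ((hasF2 hG).clm_apply (hasFDerivAt_const w p)))]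
  simp [D2]

lemma D2_const_mul (hF : ContDiffAt ℝ 2 F p) (c : ℝ) (v w : E) :
    D2 (fun q => c * F q) p v w = c * D2 F p v w := by
  have h1 : ∀ᶠ q in 𝓝 p, fderiv ℝ (fun q => c * F q) q w = c * fderiv ℝ F q w := by
    filter_upwards [ev_diff hF] with q h1
    rw [fderiv_const_mul h1]
    simp
  rw [D2_eq (contDiffAt_const.mul hF) v w h1
    (((hasF2 hF).clm_apply (hasFDerivAt_const w p)).const_mul c)]
  simp [D2]

/-- composition with a continuous linear map -/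
lemma D2_clm (L : E' →L[ℝ] E) {x : E'} (hF : ContDiffAt ℝ 2 F (L x)) (v w : E') :
    D2 (fun q => F (L q)) x v w = D2 F (L x) (L v) (L w) := by
  have h1 : ∀ᶠ q in 𝓝 x, fderiv ℝ (fun q => F (L q)) q w = fderiv ℝ F (L q) (L w) := by
    filter_upwards [L.continuous.continuousAt.eventually (ev_diff hF)] with q hq
    have h2 : fderiv ℝ (fun q => F (L q)) q = _ := (hq.hasFDerivAt.comp q L.hasFDerivAt).fderiv
    rw [h2]
    simp
  have h0 : ContDiffAt ℝ 2 (fun q => F (L q)) x := hF.comp x L.contDiff.contDiffAt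
  rw [D2_eq h0 v w h1
    (((hasF2 hF).comp x L.hasFDerivAt).clm_apply (hasFDerivAt_const (L w) x))]
  simp [D2]

end general

/-- The orbit space with coordinates `(μ, z)` or `(l, z)`. -/
abbrev P : Type := ℝ × ℂ

def e0 : P := (1, 0)
def e1 : P := (0, 1)
def e2 : P := (0, Complex.I)

/-- The flat Laplacian. -/
def lap (F : P → ℝ) (p : P) : ℝ := D2 F p e0 e0 + D2 F p e1 e1 + D2 F p e2 e2

/-- The distance to the centre `(0, c)`. -/
def rr (c : ℂ) (p : P) : ℝ := √(p.1 ^ 2 + ‖p.2 - c‖ ^ 2)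

/-- The Euclidean product of `p - (0, c)` with `w`. -/
def NN (c : ℂ) (p w : P) : ℝ := p.1 * w.1 + (p.2.re - c.re) * w.2.re + (p.2.im - c.im) * w.2.im

def NL (c : ℂ) (p : P) : P →L[ℝ] ℝ :=
  p.1 • ContinuousLinearMap.fst ℝ ℝ ℂ +
    (p.2.re - c.re) • Complex.reCLM.comp (ContinuousLinearMap.snd ℝ ℝ ℂ) +
    (p.2.im - c.im) • Complex.imCLM.comp (ContinuousLinearMap.snd ℝ ℝ ℂ)

lemma NL_apply (c : ℂ) (p w : P) : NL c p w = NN c p w := by simp [NL, NN]

lemma rr_nonneg (c : ℂ) (p : P) : 0 ≤ rr c p := Real.sqrt_nonneg _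

lemma rr_sq' (c : ℂ) (p : P) : rr c p ^ 2 = p.1 ^ 2 + ‖p.2 - c‖ ^ 2 :=
  Real.sq_sqrt (by positivity)

lemma normsq (c : ℂ) (z : ℂ) : ‖z - c‖ ^ 2 = (z.re - c.re) ^ 2 + (z.im - c.im) ^ 2 := by
  rw [← Complex.normSq_eq_norm_sq, Complex.normSq_apply]
  simp only [Complex.sub_re, Complex.sub_im]
  ring

lemma rr_sq (c : ℂ) (p : P) :
    rr c p ^ 2 = p.1 ^ 2 + (p.2.re - c.re) ^ 2 + (p.2.im - c.im) ^ 2 := by
  rw [rr_sq', normsq]; ring

lemma abs_le_rr (c : ℂ) (p : P) : |p.1| ≤ rr c p :=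
  Real.abs_le_sqrt (by nlinarith [sq_nonneg ‖p.2 - c‖])

lemma rr_pos {c : ℂ} {p : P} (h : 0 < rr c p + p.1) : 0 < rr c p := by
  have := le_abs_self p.1
  linarith [abs_le_rr c p]

lemma rr_cont (c : ℂ) : Continuous (rr c) := by
  unfold rr
  fun_prop

lemma rr_eq (c : ℂ) : rr c = fun p : P =>
    √(p.1 ^ 2 + (p.2.re - c.re) ^ 2 + (p.2.im - c.im) ^ 2) := by
  funext p
  rw [rr, normsq, add_assoc]

lemma q_smooth (c : ℂ) : ContDiff ℝ 2 fun p : P =>
    p.1 ^ 2 + (p.2.re - c.re) ^ 2 + (p.2.im - c.im) ^ 2 :=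
  ((contDiff_fst.pow 2).add
    (((Complex.reCLM.contDiff.comp contDiff_snd).sub contDiff_const).pow 2)).add
    (((Complex.imCLM.contDiff.comp contDiff_snd).sub contDiff_const).pow 2)

lemma rr_c2 {c : ℂ} {p : P} (h : 0 < rr c p) : ContDiffAt ℝ 2 (rr c) p := by
  have h1 := rr_sq c p
  rw [rr_eq]
  exact (q_smooth c).contDiffAt.sqrt (by rw [← h1]; positivity)

lemma d_re (p : P) : HasFDerivAt (fun q : P => q.2.re)
    (Complex.reCLM.comp (ContinuousLinearMap.snd ℝ ℝ ℂ)) p :=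
  (Complex.reCLM.comp (ContinuousLinearMap.snd ℝ ℝ ℂ)).hasFDerivAt

lemma d_im (p : P) : HasFDerivAt (fun q : P => q.2.im)
    (Complex.imCLM.comp (ContinuousLinearMap.snd ℝ ℝ ℂ)) p :=
  (Complex.imCLM.comp (ContinuousLinearMap.snd ℝ ℝ ℂ)).hasFDerivAt

lemma d_rr {c : ℂ} {p : P} (h : 0 < rr c p) : HasFDerivAt (rr c) ((rr c p)⁻¹ • NL c p) p := by
  have h1 := rr_sq c p
  have h2 := ((((hasFDerivAt_fst (𝕜 := ℝ) (p := p)).pow 2).add
    (((d_re p).sub_const c.re).pow 2)).add (((d_im p).sub_const c.im).pow 2)).sqrt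
    (by simp only [Pi.add_apply]; rw [← h1]; positivity)
  have h3 : rr c p = √(p.1 ^ 2 + (p.2.re - c.re) ^ 2 + (p.2.im - c.im) ^ 2) := by rw [rr_eq]
  rw [rr_eq]
  refine h2.congr_fderiv ?_
  refine ContinuousLinearMap.ext fun w => ?_
  simp only [Pi.add_apply, ← h3]
  simp [NL]
  field_simp

lemma d_NN (c : ℂ) (p w : P) : HasFDerivAt (fun q => NN c q w) (NL 0 w) p := by
  have h := (((hasFDerivAt_fst (𝕜 := ℝ) (p := p)).mul_const w.1).add
    (((d_re p).sub_const c.re).mul_const w.2.re)).add (((d_im p).sub_const c.im).mul_const w.2.im)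
  refine h.congr_fderiv ?_
  refine ContinuousLinearMap.ext fun v => ?_
  simp [NL]

lemma fd_rr {c : ℂ} {p : P} (h : 0 < rr c p) (w : P) : fderiv ℝ (rr c) p w = NN c p w / rr c p := by
  rw [(d_rr h).fderiv]
  simp [NL_apply, div_eq_inv_mul]

lemma D2_rr {c : ℂ} {p : P} (h : 0 < rr c p) (v w : P) :
    D2 (rr c) p v w = NN 0 w v / rr c p - NN c p w * NN c p v / rr c p ^ 3 := by
  have h1 : ∀ᶠ q in 𝓝 p, fderiv ℝ (rr c) q w = NN c q w * (rr c q)⁻¹ := by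
    filter_upwards [(rr_cont c).continuousAt.eventually (lt_mem_nhds h)] with q hq
    rw [fd_rr hq, div_eq_mul_inv]
  rw [D2_eq (rr_c2 h) v w h1 ((d_NN c p w).mul
    ((hasDerivAt_inv h.ne').comp_hasFDerivAt p (d_rr h)))]
  simp [NL_apply]
  field_simp
  ring

lemma lap_rr {c : ℂ} {p : P} (h : 0 < rr c p) : lap (rr c) p = 2 / rr c p := by
  have h1 := rr_sq c p
  simp only [lap, D2_rr h, NN, e0, e1, e2]
  simp
  field_simp
  linarith

/-- the harmonic function `log (r + μ)` -/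
def lg (c : ℂ) (p : P) : ℝ := Real.log (rr c p + p.1)

lemma lg_c2 {c : ℂ} {p : P} (h : 0 < rr c p + p.1) : ContDiffAt ℝ 2 (lg c) p :=
  ((rr_c2 (rr_pos h)).add contDiffAt_fst).log h.ne'

lemma fd_lg {c : ℂ} {p : P} (h : 0 < rr c p + p.1) (w : P) :
    fderiv ℝ (lg c) p w = (NN c p w * (rr c p)⁻¹ + w.1) * (rr c p + p.1)⁻¹ := by
  have h1 := ((d_rr (rr_pos h)).add (hasFDerivAt_fst (𝕜 := ℝ) (p := p))).log h.ne'
  have h2 : fderiv ℝ (lg c) p = _ := h1.fderiv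
  rw [h2]
  simp [NL_apply]
  ring

lemma lap_lg {c : ℂ} {p : P} (h : 0 < rr c p + p.1) : lap (lg c) p = 0 := by
  have hr := rr_pos h
  have key : ∀ w : P, D2 (lg c) p w w =
      (NN 0 w w / rr c p - NN c p w ^ 2 / rr c p ^ 3) / (rr c p + p.1) -
        (NN c p w / rr c p + w.1) ^ 2 / (rr c p + p.1) ^ 2 := by
    intro w
    have h1 : ∀ᶠ q in 𝓝 p, fderiv ℝ (lg c) q w =
        (NN c q w * (rr c q)⁻¹ + w.1) * (rr c q + q.1)⁻¹ := by
      filter_upwards [((rr_cont c).add continuous_fst).continuousAt.eventually (lt_mem_nhds h)]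
        with q hq
      exact fd_lg hq w
    rw [D2_eq (lg_c2 h) w w h1 ((((d_NN c p w).mul
      ((hasDerivAt_inv hr.ne').comp_hasFDerivAt p (d_rr hr))).add_const w.1).mul
      ((hasDerivAt_inv h.ne').comp_hasFDerivAt p
        ((d_rr hr).add (hasFDerivAt_fst (𝕜 := ℝ) (p := p)))))]
    simp [NL_apply]
    field_simp
    ring
  have h1 := rr_sq c p
  simp only [lap, key, NN, e0, e1, e2]
  simp
  field_simp
  nlinarith

section centres

variable {ι : Type} [Fintype ι] (a : ι → ℂ)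

/-- The Gibbons-Hawking potential. -/
def VV (p : P) : ℝ := ∑ j, 1 / rr (a j) p
/-- The sum of the distances to the centres. -/
def RR (p : P) : ℝ := ∑ j, rr (a j) p
/-- `log |x|²` as a function on the orbit space. -/
def ll (p : P) : ℝ := ∑ j, lg (a j) p
/-- The change of coordinates `(μ, z) ↦ (log |x|², z)`. -/
def Th (p : P) : P := (ll a p, p.2)
/-- The complement of the half lines `x = 0`. -/
def Up : Set P := {p | ∀ j, 0 < rr (a j) p + p.1}

variable {a} {p : P} {F K : P → ℝ}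

lemma Up_open : IsOpen (Up a) := by
  have : Up a = ⋂ j, {p | 0 < rr (a j) p + p.1} := by ext p; simp [Up]
  rw [this]
  exact isOpen_iInter_of_finite fun j =>
    isOpen_lt continuous_const ((rr_cont _).add continuous_fst)

lemma ll_c2 (h : p ∈ Up a) : ContDiffAt ℝ 2 (ll a) p := ContDiffAt.sum fun j _ => lg_c2 (h j)

lemma RR_c2 (h : p ∈ Up a) : ContDiffAt ℝ 2 (RR a) p :=
  ContDiffAt.sum fun j _ => rr_c2 (rr_pos (h j))

lemma Th_c2 (h : p ∈ Up a) : ContDiffAt ℝ 2 (Th a) p := (ll_c2 h).prodMk contDiffAt_snd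

lemma lap_sum {f : ι → P → ℝ} (h : ∀ j, ContDiffAt ℝ 2 (f j) p) :
    lap (fun q => ∑ j, f j q) p = ∑ j, lap (f j) p := by
  simp only [lap, D2_sum h, Finset.sum_add_distrib]

lemma lap_ll (h : p ∈ Up a) : lap (ll a) p = 0 := by
  have := lap_sum (f := fun j => lg (a j)) fun j => lg_c2 (h j)
  exact this.trans (Finset.sum_eq_zero fun j _ => lap_lg (h j))

lemma lap_RR (h : p ∈ Up a) : lap (RR a) p = 2 * VV a p := by
  have := lap_sum (f := fun j => rr (a j)) fun j => rr_c2 (rr_pos (h j))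
  refine this.trans ?_
  rw [VV, Finset.mul_sum]
  exact Finset.sum_congr rfl fun j _ => by rw [lap_rr (rr_pos (h j))]; ring

lemma fd_ll0 (h : p ∈ Up a) : fderiv ℝ (ll a) p e0 = VV a p := by
  have h1 : fderiv ℝ (ll a) p = _ :=
    fderiv_fun_sum (u := Finset.univ) fun j _ => (lg_c2 (h j)).differentiableAt (by norm_num)
  rw [h1, sum_apply, VV]
  refine Finset.sum_congr rfl fun j _ => ?_
  have h2 := h j
  have h3 := rr_pos h2
  rw [fd_lg h2]
  simp [NN, e0]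
  field_simp
  ring

lemma fd_RR0 (h : p ∈ Up a) : fderiv ℝ (RR a) p e0 = p.1 * VV a p := by
  have h1 : fderiv ℝ (RR a) p = _ :=
    fderiv_fun_sum (u := Finset.univ) fun j _ =>
      (rr_c2 (rr_pos (h j))).differentiableAt (by norm_num)
  rw [h1, sum_apply, VV, Finset.mul_sum]
  refine Finset.sum_congr rfl fun j _ => ?_
  rw [fd_rr (rr_pos (h j))]
  simp [NN, e0, div_eq_mul_inv]

lemma VV_pos [Nonempty ι] (h : p ∈ Up a) : 0 < VV a p :=
  Finset.sum_pos (fun j _ => one_div_pos.mpr (rr_pos (h j))) Finset.univ_nonempty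

lemma d_Th (h : p ∈ Up a) :
    HasFDerivAt (Th a) ((fderiv ℝ (ll a) p).prod (ContinuousLinearMap.snd ℝ ℝ ℂ)) p :=
  ((ll_c2 h).differentiableAt (by norm_num)).hasFDerivAt.prodMk hasFDerivAt_snd

lemma fd_comp (h : p ∈ Up a) (hF : DifferentiableAt ℝ F (Th a p)) (w : P) :
    fderiv ℝ (fun q => F (Th a q)) p w = fderiv ℝ F (Th a p) (fderiv ℝ (ll a) p w, w.2) := by
  have h2 : fderiv ℝ (fun q => F (Th a q)) p = _ := (hF.hasFDerivAt.comp p (d_Th h)).fderiv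
  rw [h2]
  simp

lemma ev_Th (h : p ∈ Up a) (hF : ContDiffAt ℝ 2 F (Th a p)) :
    ∀ᶠ q in 𝓝 p, q ∈ Up a ∧ DifferentiableAt ℝ F (Th a q) :=
  (show ∀ᶠ q in 𝓝 p, q ∈ Up a from Up_open.mem_nhds h).and
    ((d_Th h).continuousAt.eventually (ev_diff hF))

lemma D2_comp (h : p ∈ Up a) (hF : ContDiffAt ℝ 2 F (Th a p)) (v w : P) :
    D2 (fun q => F (Th a q)) p v w =
      D2 F (Th a p) (fderiv ℝ (ll a) p v, v.2) (fderiv ℝ (ll a) p w, w.2) +
        D2 (ll a) p v w * fderiv ℝ F (Th a p) e0 := by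
  have h0 : ContDiffAt ℝ 2 (fun q => F (Th a q)) p := hF.comp p (Th_c2 h)
  have h1 : ∀ᶠ q in 𝓝 p, fderiv ℝ (fun q => F (Th a q)) q w =
      fderiv ℝ F (Th a q) (fderiv ℝ (ll a) q w, w.2) :=
    (ev_Th h hF).mono fun q hq => fd_comp hq.1 hq.2 w
  rw [D2_eq h0 v w h1 (((hasF2 hF).comp p (d_Th h)).clm_apply
    (((hasF2 (ll_c2 h)).clm_apply (hasFDerivAt_const w p)).prodMk (hasFDerivAt_const w.2 p)))]
  have h2 : ((D2 (ll a) p v w, 0) : P) = D2 (ll a) p v w • e0 := by simp [e0]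
  have h3 : D2 (ll a) p v w * fderiv ℝ F (Th a p) e0 =
      fderiv ℝ F (Th a p) (D2 (ll a) p v w, 0) := by rw [h2, map_smul, smul_eq_mul]
  rw [h3]
  simp [D2, add_comm]

lemma D2_exp (F : P → ℝ) (x : P) (s t : ℝ) (u v : P) :
    D2 F x (s • e0 + u) (t • e0 + v) =
      s * t * D2 F x e0 e0 + s * D2 F x e0 v + t * D2 F x u e0 + D2 F x u v := by
  simp only [D2, map_add, map_smul, add_apply,
    smul_apply, smul_eq_mul]
  ring

lemma vec0 (s : ℝ) : ((s, e0.2) : P) = s • e0 + 0 := by simp [e0]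
lemma vec1 (s : ℝ) : ((s, e1.2) : P) = s • e0 + e1 := by simp [e0, e1]
lemma vec2 (s : ℝ) : ((s, e2.2) : P) = s • e0 + e2 := by simp [e0, e2]

/-- The flat Laplacian of `F ∘ Θ`. -/
lemma lap_comp (h : p ∈ Up a) (hF : ContDiffAt ℝ 2 F (Th a p)) :
    lap (fun q => F (Th a q)) p =
      (VV a p ^ 2 + fderiv ℝ (ll a) p e1 ^ 2 + fderiv ℝ (ll a) p e2 ^ 2) * D2 F (Th a p) e0 e0 +
        2 * (fderiv ℝ (ll a) p e1 * D2 F (Th a p) e0 e1 +
          fderiv ℝ (ll a) p e2 * D2 F (Th a p) e0 e2) +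
        D2 F (Th a p) e1 e1 + D2 F (Th a p) e2 e2 := by
  have h1 := lap_ll h
  rw [lap] at h1
  rw [lap, D2_comp h hF, D2_comp h hF, D2_comp h hF, vec0, vec1, vec2, D2_exp, D2_exp, D2_exp,
    fd_ll0 h, D2_symm hF e1 e0, D2_symm hF e2 e0]
  have h2 : ∀ v, D2 F (Th a p) v 0 = 0 := fun v => by simp [D2]
  have h3 : ∀ v, D2 F (Th a p) 0 v = 0 := fun v => by simp [D2]
  rw [h2, h2, h3]
  linear_combination (fderiv ℝ F (Th a p) e0) * h1

/-- The Hessian of the Legendre transform `K`, `K ∘ Θ = ∑ r_j`. -/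
lemma K_hess [Nonempty ι] (h : p ∈ Up a) (hK : ContDiffAt ℝ 2 K (Th a p))
    (hKR : ∀ q ∈ Up a, K (Th a q) = RR a q) :
    D2 K (Th a p) e0 e0 = 1 / VV a p ∧
    D2 K (Th a p) e0 e1 = -fderiv ℝ (ll a) p e1 / VV a p ∧
    D2 K (Th a p) e0 e2 = -fderiv ℝ (ll a) p e2 / VV a p ∧
    D2 K (Th a p) e1 e1 + D2 K (Th a p) e2 e2 =
      VV a p + (fderiv ℝ (ll a) p e1 ^ 2 + fderiv ℝ (ll a) p e2 ^ 2) / VV a p := by
  have hV := VV_pos h
  have ev : ∀ q ∈ Up a, (fun q => K (Th a q)) =ᶠ[𝓝 q] RR a := fun q hq =>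
    (show ∀ᶠ q in 𝓝 q, q ∈ Up a from Up_open.mem_nhds hq).mono hKR
  have h1 : ∀ᶠ q in 𝓝 p, q.1 = fderiv ℝ K (Th a q) e0 := by
    filter_upwards [ev_Th h hK] with q hq
    have h2 := fd_comp hq.1 hq.2 e0
    rw [(ev q hq.1).fderiv_eq, fd_RR0 hq.1, fd_ll0 hq.1, vec0, add_zero, map_smul, smul_eq_mul,
      mul_comm] at h2
    exact mul_left_cancel₀ (VV_pos hq.1).ne' h2
  have h2 := ((((hasF2 hK).comp p (d_Th h)).clm_apply
    (hasFDerivAt_const e0 p)).congr_of_eventuallyEq h1).unique (hasFDerivAt_fst (𝕜 := ℝ) (p := p))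
  have h3 : ∀ v : P, D2 K (Th a p) (fderiv ℝ (ll a) p v, v.2) e0 = v.1 := fun v => by
    have := congrArg (fun L : P →L[ℝ] ℝ => L v) h2
    simpa [D2] using this
  have h4 : ∀ (s : ℝ) (u : P), D2 K (Th a p) (s • e0 + u) e0 =
      s * D2 K (Th a p) e0 e0 + D2 K (Th a p) e0 u := fun s u => by
    rw [D2_symm hK e0 u]
    simp [D2]
  have k0 := h3 e0
  have k1 := h3 e1
  have k2 := h3 e2
  rw [vec0, h4, fd_ll0 h] at k0
  rw [vec1, h4] at k1
  rw [vec2, h4] at k2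
  have z : D2 K (Th a p) e0 0 = 0 := by simp [D2]
  have k0' : D2 K (Th a p) e0 e0 = 1 / VV a p := by
    rw [z, add_zero, show e0.1 = 1 from rfl] at k0
    field_simp
    linarith
  have k1' : D2 K (Th a p) e0 e1 = -fderiv ℝ (ll a) p e1 / VV a p := by
    rw [k0', show e1.1 = 0 from rfl] at k1
    linear_combination k1
  have k2' : D2 K (Th a p) e0 e2 = -fderiv ℝ (ll a) p e2 / VV a p := by
    rw [k0', show e2.1 = 0 from rfl] at k2
    linear_combination k2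
  refine ⟨k0', k1', k2', ?_⟩
  have h5 := lap_comp h hK
  have h6 : lap (fun q => K (Th a q)) p = lap (RR a) p := by
    simp only [lap, D2_congr (ev p h)]
  rw [h6, lap_RR h, k0', k1', k2'] at h5
  field_simp at h5 ⊢
  linarith

/-- `MA (2 K) = 1`. -/
lemma K_MA [Nonempty ι] (h : p ∈ Up a) (hK : ContDiffAt ℝ 2 K (Th a p))
    (hKR : ∀ q ∈ Up a, K (Th a q) = RR a q) :
    D2 K (Th a p) e0 e0 * (D2 K (Th a p) e1 e1 + D2 K (Th a p) e2 e2) -
      D2 K (Th a p) e0 e1 ^ 2 - D2 K (Th a p) e0 e2 ^ 2 = 1 := by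
  obtain ⟨k0, k1, k2, k3⟩ := K_hess h hK hKR
  have hV := VV_pos h
  rw [k0, k1, k2, k3]
  field_simp
  ring

/-- The Laplacian of the Ricci flat metric on invariant functions. -/
lemma K_lap [Nonempty ι] (h : p ∈ Up a) (hK : ContDiffAt ℝ 2 K (Th a p))
    (hKR : ∀ q ∈ Up a, K (Th a q) = RR a q) (hF : ContDiffAt ℝ 2 F (Th a p)) :
    lap (fun q => F (Th a q)) p = VV a p *
      (D2 K (Th a p) e0 e0 * (D2 F (Th a p) e1 e1 + D2 F (Th a p) e2 e2) +
        (D2 K (Th a p) e1 e1 + D2 K (Th a p) e2 e2) * D2 F (Th a p) e0 e0 -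
        2 * (D2 K (Th a p) e0 e1 * D2 F (Th a p) e0 e1 +
          D2 K (Th a p) e0 e2 * D2 F (Th a p) e0 e2)) := by
  obtain ⟨k0, k1, k2, k3⟩ := K_hess h hK hKR
  have hV := VV_pos h
  rw [lap_comp h hF, k0, k1, k2, k3]
  field_simp
  ring

end centres

end

end Pool.Agent.MP_67f0e4_gt.H73
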