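import Pool.Agent.MP_67f0e4_gt.H73.I2
import Pool.Agent.MP_67f0e4_gt.H71.Int
import Pool.Agent.MP_67f0e4_gt.K.Chart
import Pool.Agent.MP_67f0e4_gt.K.Spec

/-! Block I (iii) and the symmetries of the Gibbons-Hawking surface. -/

namespace Pool.Agent.MP_67f0e4_gt.H73

open Set Filter Topology Metric
open scoped ContDiff
open K (V C3 Hm Pz Xs mu psi swap lv hdet qf Par XSm0 XCl Cl RFlat Nrm YB Aut an Fam Surf)

noncomputable section

/-- closeness at the centre of a normalised chart from an oscillation bound -/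
lemma cl_of_osc : ∃ C : ℝ, 0 < C ∧ ∀ (X : Set C3) (ψ f : C3 → ℝ) (Λ M E s : ℝ) (p : C3),
    Surf X → XSm0 X ψ → XSm0 X f → 0 ≤ ψ p → Nrm X ψ f Λ M p → 0 < s → s ≤ 1 / 4 →
    (0 < ψ p → ∀ q ∈ X, ∀ q' ∈ X, ψ q ≤ 2 * ψ p → ψ q' ≤ 2 * ψ p →
      (f q - ψ q) - (f q' - ψ q') ≤ E * ψ p) →
    XCl X (C * (E / s ^ 2 + M * s ^ 3) * Λ) f ψ p := by
  obtain ⟨C, hC, H⟩ := H71.intp
  refine ⟨C, hC, ?_⟩
  rintro X ψ f Λ M E s p hX hψ hf h0 ⟨N, P, rfl, hE, hM, hb⟩ hs hs4 ho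
  have z : (0 : V) ∈ ball (0 : V) 1 := mem_ball_self one_pos
  have hp : 0 < ψ (N 0) := by
    refine lt_of_le_of_ne h0 fun h => ?_
    have h1 := (hE.2 (K.e 0)).1
    rw [← h, inv_zero, zero_smul, K.qf_zero, K.norm_e] at h1
    norm_num at h1
  have key := H (fun y => (ψ (N 0))⁻¹ * (f (N y) - ψ (N y))) E M s
    (contDiffOn_const.mul ((hf _ _ P).sub (hψ _ _ P))) (fun x hx y hy => by
      have h1 := ho hp _ (P.mem hx) _ (P.mem hy) (hb x hx) (hb y hy)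
      rw [← mul_sub, inv_mul_le_iff₀ hp, mul_comm]
      exact h1) hM hs hs4
  refine K.XCl_of_chart hX hf hψ P z fun ξ => ?_
  have h1 := key ξ
  have h2 : lv (fun y => f (N y) - ψ (N y)) 0 = lv (f ∘ N) 0 - lv (ψ ∘ N) 0 :=
    K.lv_sub (hf.at2 P z) (hψ.at2 P z)
  rw [K.lv_const_mul, h2, K.qf_smul, K.qf_sub, abs_mul, abs_of_pos (inv_pos.mpr hp),
    inv_mul_le_iff₀ hp] at h1
  have h3 := (hE.2 ξ).1
  rw [K.qf_smul] at h3
  have h4 : 0 ≤ C * (E / s ^ 2 + M * s ^ 3) := by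
    have h5 := (abs_nonneg _).trans (key (K.e 0))
    rwa [K.norm_e, one_pow, mul_one] at h5
  refine h1.trans ?_
  calc ψ (N 0) * (C * (E / s ^ 2 + M * s ^ 3) * ‖ξ‖ ^ 2)
      ≤ ψ (N 0) * (C * (E / s ^ 2 + M * s ^ 3) * (Λ * ((ψ (N 0))⁻¹ * qf (lv (ψ ∘ N) 0) ξ))) :=
        mul_le_mul_of_nonneg_left (mul_le_mul_of_nonneg_left h3 h4) hp.le
    _ = _ := by field_simp

lemma XCl_mono {X : Set C3} {ψ f : C3 → ℝ} (hψ : RFlat X ψ) {d d' : ℝ} {p : C3}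
    (h : XCl X d f ψ p) (hd : d ≤ d') : XCl X d' f ψ p := fun N U P x hx e =>
  (h N U P x hx e).mono (hψ.2 N U P x hx).1.nn hd

/-- the choice of the interpolation scale -/
lemma scale {A B : ℝ} (hA : 0 < A) (hB : 0 < B) : ∃ d0 : ℝ, 0 < d0 ∧ d0 < 1 ∧
    ∀ h : ℝ, 0 < h → h ≤ d0 → ∃ s : ℝ, 0 < s ∧ s ≤ 1 / 4 ∧
      A * h ^ 2 / s ^ 2 + B * s ^ 3 ≤ h / 2 := by
  obtain ⟨s0, h1, h2, h3⟩ : ∃ s0 : ℝ, 0 < s0 ∧ s0 ≤ 1 / 4 ∧ s0 ≤ 1 / (16 * A * B) :=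
    ⟨min _ _, lt_min (by norm_num) (by positivity), min_le_left _ _, min_le_right _ _⟩
  refine ⟨min (1 / 2) (4 * B * s0 ^ 3), lt_min (by norm_num) (by positivity),
    (min_le_left _ _).trans_lt (by norm_num), fun h hh hd => ?_⟩
  obtain ⟨s, hs, e⟩ : ∃ s : ℝ, 0 < s ∧ s ^ 3 = h / (4 * B) :=
    ⟨_, Real.rpow_pos_of_pos (by positivity) _,
      Real.rpow_inv_natCast_pow (by positivity) three_ne_zero⟩
  have e' : h = 4 * B * s ^ 3 := by rw [e]; field_simp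
  have h4 : s ≤ s0 := by
    refine le_of_pow_le_pow_left₀ three_ne_zero h1.le ?_
    have := hd.trans (min_le_right _ _)
    rw [e'] at this
    exact le_of_mul_le_mul_left this (by positivity)
  refine ⟨s, hs, h4.trans h2, ?_⟩
  have h5 : s * (16 * A * B) ≤ 1 := (le_div_iff₀ (by positivity)).mp (h4.trans h3)
  have h6 : A * h ^ 2 / s ^ 2 = s * (16 * A * B) * (B * s ^ 3) := by
    rw [e']
    field_simp
    ring
  have h7 : 0 < B * s ^ 3 := by positivity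
  rw [h6]
  nlinarith

variable {n : ℕ} {a : Fin n → ℂ}

lemma psi_nonneg (p : C3) : 0 ≤ psi a p :=
  mul_nonneg zero_le_two (Finset.sum_nonneg fun _ _ => Real.sqrt_nonneg _)

theorem i23 (hn : 0 < n) (ha : Function.Injective a) {ζ : ℂ} (hs : Sym a ζ) (hX : Surf (Xs a))
    (F : Fam (Xs a)) (hψ : RFlat (Xs a) (psi a)) {S : Set (C3 → C3)}
    (hS : ∀ f : C3 → ℝ, (∀ σ ∈ S, ∀ p ∈ Xs a, f (σ p) = f p) → Inv a ζ f) :
    K.I23 (Xs a) (psi a) S := by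
  intro Λ M
  obtain ⟨C1, ρ1, hC1, hρ1, H1⟩ := osc_psi hn ha hs hψ
  obtain ⟨C0, hC0, H0⟩ := cl_of_osc
  obtain ⟨L, hL0, hL⟩ : ∃ L : ℝ, 0 < L ∧ Λ ≤ L := ⟨max Λ 1, by positivity, le_max_left _ _⟩
  obtain ⟨M', hM0, hM⟩ : ∃ M' : ℝ, 0 < M' ∧ M ≤ M' := ⟨max M 1, by positivity, le_max_left _ _⟩
  obtain ⟨d0, hd0, hd1, Hs⟩ := scale (A := 4 * C0 * C1 * L) (B := C0 * M' * L)
    (by positivity) (by positivity)
  refine ⟨d0, hd0, ρ1, fun δ hδ => ⟨min (δ ^ 2) 1, by positivity, ?_⟩⟩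
  intro f ρ0 hρ hf hI h1 h2 h3 h4 h5
  have step : ∀ h : ℝ, δ ≤ h → h ≤ d0 →
      (∀ p ∈ Xs a, psi a p ≤ ρ0 → XCl (Xs a) h f (psi a) p) →
      ∀ p ∈ Xs a, psi a p ≤ ρ0 → XCl (Xs a) (max δ (h / 2)) f (psi a) p := by
    intro h hh hd hc p hp hpρ
    rcases le_total (ρ0 / 2) (psi a p) with h6 | h6
    · exact XCl_mono hψ (h2 p hp h6 hpρ) (le_max_left _ _)
    obtain ⟨s, hs0, hs4, hb⟩ := Hs h (hδ.trans_le hh) hd
    have hN : Nrm (Xs a) (psi a) f L M' p := by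
      obtain ⟨N, P, e, k1, k2, k3⟩ := h5 p hp h6
      exact ⟨N, P, e, k1.mono hL, fun l hl α x hx => (k2 l hl α x hx).trans hM, k3⟩
    have h7 := H0 (Xs a) (psi a) f L M' (4 * C1 * h ^ 2) s p hX hψ.1 hf (psi_nonneg p) hN hs0 hs4
      fun h0 q hq q' hq' k k' => by
        have h8 := H1 f ρ0 h (min (δ ^ 2) 1) hρ (hd.trans_lt hd1) (by positivity)
          (min_le_right _ _) hf (hf.continuousOn hX F) (hS f hI) hc
          (fun N U P x hx k => by simpa using h3 _ (P.mem hx) k N U P x hx rfl) h4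
          (2 * psi a p) (by linarith) (by linarith) q hq q' hq' k k'
        have h9 : min (δ ^ 2) 1 ≤ h ^ 2 :=
          (min_le_left _ _).trans (pow_le_pow_left₀ hδ.le hh 2)
        refine h8.trans ?_
        have : C1 * (min (δ ^ 2) 1 + h ^ 2) ≤ C1 * (2 * h ^ 2) :=
          mul_le_mul_of_nonneg_left (by linarith) hC1.le
        nlinarith
    refine XCl_mono hψ h7 (le_trans ?_ (le_max_right _ _))
    refine le_of_eq_of_le ?_ hb
    ring
  rcases le_total d0 δ with hc | hc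
  · exact fun p hp k => XCl_mono hψ (h1 p hp k) hc
  have ind : ∀ k : ℕ, ∀ p ∈ Xs a, psi a p ≤ ρ0 →
      XCl (Xs a) (max δ (d0 * (1 / 2) ^ k)) f (psi a) p := by
    intro k
    induction k with
    | zero => exact fun p hp k => XCl_mono hψ (h1 p hp k) (by simp)
    | succ k ih =>
      intro p hp hk
      have h6 : d0 * (1 / 2) ^ k ≤ d0 :=
        mul_le_of_le_one_right hd0.le (pow_le_one₀ (by norm_num) (by norm_num))
      refine XCl_mono hψ (step _ (le_max_left _ _) (max_le hc h6) ih p hp hk)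
        (max_le (le_max_left _ _) ?_)
      rcases le_total δ (d0 * (1 / 2) ^ k) with h7 | h7
      · rw [max_eq_right h7]
        exact le_of_eq_of_le (by ring) (le_max_right _ _)
      · rw [max_eq_left h7]
        exact (half_le_self hδ.le).trans (le_max_left _ _)
  obtain ⟨k, hk⟩ := exists_pow_lt_of_lt_one (div_pos hδ hd0) (show (1 / 2 : ℝ) < 1 by norm_num)
  intro p hp hρp
  refine XCl_mono hψ (ind k p hp hρp) (max_le le_rfl ?_)
  rw [lt_div_iff₀ hd0] at hk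
  linarith

lemma aut_of_lin {X : Set C3} {ψ : C3 → ℝ} (L : C3 →L[ℂ] C3) (hL : Function.Injective L)
    (hm : MapsTo L X X) (hψ : ∀ p ∈ X, ψ (L p) = ψ p) : Aut X ψ L := by
  refine ⟨hm, fun N U P => ⟨P.op, L.contDiff.comp_contDiffOn P.hol, hm.comp P.mem,
    fun x hx => ?_⟩, hψ⟩
  rw [(L.hasFDerivAt.comp x ((P.at hx).differentiableAt (by simp)).hasFDerivAt).fderiv]
  exact hL.comp (P.inj x hx)

/-- the diagonal map `(x, y, z) ↦ (u x, v y, w z)` -/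
def dg (u v w : ℂ) : C3 →L[ℂ] C3 :=
  (u • ContinuousLinearMap.id ℂ ℂ).prodMap
    ((v • ContinuousLinearMap.id ℂ ℂ).prodMap (w • ContinuousLinearMap.id ℂ ℂ))

lemma dg_apply (u v w : ℂ) (p : C3) : dg u v w p = (u * p.1, v * p.2.1, w * p.2.2) := rfl

lemma dg_inj {u v w : ℂ} (hu : u ≠ 0) (hv : v ≠ 0) (hw : w ≠ 0) :
    Function.Injective (dg u v w) := by
  intro p q h
  simp only [dg_apply, Prod.mk.injEq] at h
  exact Prod.ext (mul_left_cancel₀ hu h.1)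
    (Prod.ext (mul_left_cancel₀ hv h.2.1) (mul_left_cancel₀ hw h.2.2))

lemma aut_circ (hn : 0 < n) {u : ℂ} (hu : ‖u‖ = 1) : Aut (Xs a) (psi a) (dg u u⁻¹ 1) := by
  have hu0 : u ≠ 0 := by rintro rfl; simp at hu
  refine aut_of_lin _ (dg_inj hu0 (inv_ne_zero hu0) one_ne_zero) (fun p hp => ?_) fun p hp => ?_
  · have h1 : p.1 * p.2.1 = Pz a p.2.2 := hp
    change u * p.1 * (u⁻¹ * p.2.1) = Pz a (1 * p.2.2)
    rw [one_mul, ← h1]
    field_simp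
  · rw [dg_apply, one_mul]
    exact psi_invU hn p hp u hu

lemma aut_rot (hn : 0 < n) {ζ : ℂ} (hs : Sym a ζ) : Aut (Xs a) (psi a) (dg 1 1 ζ) := by
  have h0 : ζ ≠ 0 := by rintro rfl; simpa using hs.1
  refine aut_of_lin _ (dg_inj one_ne_zero one_ne_zero h0) (fun p hp => ?_) fun p hp => ?_
  · rw [dg_apply, one_mul, one_mul]
    exact ((over_mu hn hp).rot hs).mem
  · rw [dg_apply, one_mul, one_mul]
    exact psi_rot hn hs hp

/-- the exchange of `x` and `y` -/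
def swL : C3 →L[ℂ] C3 :=
  ((ContinuousLinearMap.fst ℂ ℂ ℂ).comp (ContinuousLinearMap.snd ℂ ℂ (ℂ × ℂ))).prod
    ((ContinuousLinearMap.fst ℂ ℂ (ℂ × ℂ)).prod
      ((ContinuousLinearMap.snd ℂ ℂ ℂ).comp (ContinuousLinearMap.snd ℂ ℂ (ℂ × ℂ))))

lemma aut_swap (hn : 0 < n) : Aut (Xs a) (psi a) swap :=
  aut_of_lin swL (Function.LeftInverse.injective (g := swap) fun _ => rfl)
    (fun _ hp => (over_mu hn hp).swap.mem) fun _ hp => psi_swap hn hp

lemma Sym.inv {ζ : ℂ} (h : Sym a ζ) : Sym a ζ⁻¹ := by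
  obtain ⟨h1, h2, h3, π, hπ⟩ := h
  have h0 : ζ ≠ 0 := by rintro rfl; simp at h1
  refine ⟨by rw [norm_inv, h1, inv_one], fun h => h2 (inv_eq_one.mp h),
    by rw [inv_pow, h3, inv_one], π.symm, fun j => ?_⟩
  have := hπ (π.symm j)
  rw [Equiv.apply_symm_apply] at this
  rw [this]
  field_simp

theorem hasSym (hn : 0 < n) (ha : Function.Injective a) {ζ : ℂ} (hs : Sym a ζ)
    (hX : Surf (Xs a)) (F : Fam (Xs a)) (hψ : RFlat (Xs a) (psi a)) :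
    K.HasSym (Xs a) (psi a) := by
  have h0 : ζ ≠ 0 := by rintro rfl; simpa using hs.1
  refine ⟨{σ | (∃ u : ℂ, ‖u‖ = 1 ∧ σ = dg u u⁻¹ 1) ∨ σ = swap ∨ σ = dg 1 1 ζ}, ?_,
    i23 hn ha hs hX F hψ fun f hf => ⟨fun p hp u hu => ?_, hf _ (Or.inr (Or.inl rfl)),
      fun p hp => ?_⟩⟩
  · rintro σ (⟨u, hu, rfl⟩ | rfl | rfl)
    · have hu0 : u ≠ 0 := by rintro rfl; simp at hu
      refine ⟨aut_circ hn hu, _, aut_circ hn (u := u⁻¹) (by rw [norm_inv, hu, inv_one]),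
        fun p _ => ?_⟩
      simp [dg_apply, hu0]
    · exact ⟨aut_swap hn, _, aut_swap hn, fun _ _ => rfl⟩
    · refine ⟨aut_rot hn hs, _, aut_rot hn hs.inv, fun p _ => ?_⟩
      simp [dg_apply, h0]
  · have := hf _ (Or.inl ⟨u, hu, rfl⟩) p hp
    rwa [dg_apply, one_mul] at this
  · have := hf _ (Or.inr (Or.inr rfl)) p hp
    rwa [dg_apply, one_mul, one_mul] at this

lemma an_eq (n : ℕ) (j : Fin n) :
    an n j = Complex.exp (2 * Real.pi * Complex.I / n) ^ (j : ℕ) := by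
  rw [an, ← Complex.exp_nat_mul]
  congr 1
  ring

lemma an_inj (n : ℕ) : Function.Injective (an n) := fun i j h => by
  rw [an_eq, an_eq] at h
  exact Fin.ext ((Complex.isPrimitiveRoot_exp n i.pos.ne').pow_inj i.2 j.2 h)

lemma an_sym (hn : 2 ≤ n) : Sym (an n) (Complex.exp (2 * Real.pi * Complex.I / n)) := by
  have h := Complex.isPrimitiveRoot_exp n (by omega)
  refine ⟨h.norm'_eq_one (by omega), h.ne_one (by omega), h.pow_eq_one, ?_⟩
  obtain ⟨m, rfl⟩ : ∃ m, n = m + 1 := ⟨n - 1, by omega⟩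
  refine ⟨finRotate _, fun j => ?_⟩
  rw [an_eq, an_eq, finRotate_apply, Fin.val_add, ← pow_eq_pow_mod _ h.pow_eq_one, pow_add,
    Fin.val_one', ← pow_eq_pow_mod _ h.pow_eq_one, pow_one, mul_comm]

theorem hsym : K.HSYM := fun n hn F G =>
  hasSym (by omega) (an_inj n) (an_sym (by omega)) G.surf F G.pot.rf

end

end Pool.Agent.MP_67f0e4_gt.H73
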