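import Pool.Agent.MP_67f0e4_gt.H73.Red
import Pool.Agent.MP_67f0e4_gt.K.Base

/-! The moment map and a section of the circle action on `x y = P(z)`. -/

namespace Pool.Agent.MP_67f0e4_gt.H73

open Set Filter Topology
open K (V C3 Pz Xs mu psi swap)

noncomputable section

variable {n : ℕ} {a : Fin n → ℂ}

/-- the reflection `μ ↦ -μ` -/
def ta (q : P) : P := (-q.1, q.2)

/-- `|x|²` as a function on the orbit space -/
def AA (a : Fin n → ℂ) (q : P) : ℝ := ∏ j, (rr (a j) q + q.1)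

lemma rr_ta (c : ℂ) (q : P) : rr c (ta q) = rr c q := by simp [rr, ta]

lemma ta_ta (q : P) : ta (ta q) = q := by simp [ta]

lemma RR_ta (q : P) : RR a (ta q) = RR a q := by simp [RR, rr_ta]

lemma VV_ta (q : P) : VV a (ta q) = VV a q := by simp [VV, rr_ta]

lemma fac_nonneg (c : ℂ) (q : P) : 0 ≤ rr c q + q.1 := by
  linarith [abs_le_rr c q, neg_abs_le q.1]

lemma AA_nonneg (q : P) : 0 ≤ AA a q := Finset.prod_nonneg fun _ _ => fac_nonneg _ _

lemma AA_ta (q : P) : AA a (ta q) = ∏ j, (rr (a j) q - q.1) := by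
  simp only [AA, rr_ta]
  rfl

lemma AA_mul (q : P) : AA a q * AA a (ta q) = ‖Pz a q.2‖ ^ 2 := by
  rw [AA_ta, AA, ← Finset.prod_mul_distrib, Pz, norm_prod, ← Finset.prod_pow]
  exact Finset.prod_congr rfl fun j _ => by linear_combination rr_sq' (a j) q

lemma AA_cont : Continuous (AA a) :=
  continuous_finsetProd _ fun _ _ => (rr_cont _).add continuous_fst

lemma RR_cont : Continuous (RR a) := continuous_finsetSum _ fun _ _ => rr_cont _

lemma ta_cont : Continuous ta := by unfold ta; fun_prop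

lemma fac_lt (c z : ℂ) {m m' : ℝ} (h : m < m') (h0 : 0 < rr c (m', z) + m') :
    rr c (m, z) + m < rr c (m', z) + m' := by
  have h1 := rr_sq' c (m, z)
  have h2 := rr_sq' c (m', z)
  have h3 := rr_nonneg c (m', z)
  have h4 : rr c (m, z) < rr c (m', z) + (m' - m) :=
    lt_of_pow_lt_pow_left₀ 2 (by linarith) (by
      simp only at h1 h2
      nlinarith [mul_pos h0 (sub_pos.mpr h)])
  linarith

lemma fac_le (c z : ℂ) {m m' : ℝ} (h : m ≤ m') : rr c (m, z) + m ≤ rr c (m', z) + m' := by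
  have h1 := rr_sq' c (m, z)
  have h2 := rr_sq' c (m', z)
  have h3 := rr_nonneg c (m', z)
  have h0 := fac_nonneg c (m', z)
  have h4 : rr c (m, z) ≤ rr c (m', z) + (m' - m) :=
    le_of_pow_le_pow_left₀ two_ne_zero (by linarith) (by
      simp only at h0 h1 h2
      nlinarith [mul_nonneg h0 (sub_nonneg.mpr h)])
  linarith

lemma AA_le (z : ℂ) {m m' : ℝ} (h : m ≤ m') : AA a (m, z) ≤ AA a (m', z) :=
  Finset.prod_le_prod (fun _ _ => fac_nonneg _ _) fun _ _ => fac_le _ _ h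

lemma Up_iff {q : P} : q ∈ Up a ↔ AA a q ≠ 0 := by
  rw [AA, Finset.prod_ne_zero_iff]
  exact ⟨fun h j _ => (h j).ne', fun h j =>
    lt_of_le_of_ne (fac_nonneg _ _) (h j (Finset.mem_univ _)).symm⟩

lemma AA_lt (hn : 0 < n) (z : ℂ) {m m' : ℝ} (h : m < m') (h0 : 0 < m') :
    AA a (m, z) < AA a (m', z) := by
  have h2 : (m', z) ∈ Up a := fun j => add_pos_of_nonneg_of_pos (rr_nonneg _ _) h0
  by_cases h3 : AA a (m, z) = 0
  · rw [h3]
    exact lt_of_le_of_ne (AA_nonneg _) (Up_iff.mp h2).symm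
  · have : Nonempty (Fin n) := ⟨⟨0, hn⟩⟩
    exact Finset.prod_lt_prod_of_nonempty (fun j _ => Up_iff.mpr h3 j)
      (fun j _ => fac_lt _ _ h (h2 j)) Finset.univ_nonempty

lemma root_lt (hn : 0 < n) (z : ℂ) {m m' : ℝ} (h : m < m') :
    AA a (m, z) - AA a (-m, z) < AA a (m', z) - AA a (-m', z) := by
  have h1 : AA a (m, z) ≤ AA a (m', z) := AA_le z h.le
  have h2 : AA a (-m', z) ≤ AA a (-m, z) := AA_le z (by linarith)
  rcases lt_or_ge 0 m' with h3 | h3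
  · linarith [AA_lt (a := a) hn z h h3]
  · linarith [AA_lt (a := a) hn z (show -m' < -m by linarith) (by linarith)]

lemma root_iff (p : C3) (m : ℝ) :
    (∏ j, (K.rr a j m p.2.2 + m) - ∏ j, (K.rr a j m p.2.2 - m) = ‖p.1‖ ^ 2 - ‖p.2.1‖ ^ 2) ↔
      AA a (m, p.2.2) - AA a (-m, p.2.2) = ‖p.1‖ ^ 2 - ‖p.2.1‖ ^ 2 := by
  have : AA a (-m, p.2.2) = ∏ j, (K.rr a j m p.2.2 - m) := AA_ta (a := a) (m, p.2.2)
  rw [this]
  rfl

lemma root_ex (hn : 0 < n) (z : ℂ) (c : ℝ) : ∃ m, AA a (m, z) - AA a (-m, z) = c := by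
  obtain ⟨m, hm⟩ : ∃ m : ℝ, m = |c| + ‖Pz a z‖ ^ 2 + 1 := ⟨_, rfl⟩
  have h0 : 1 ≤ m := by rw [hm]; linarith [abs_nonneg c, sq_nonneg ‖Pz a z‖]
  have h1 : m ≤ AA a (m, z) := by
    calc m ≤ m ^ n := le_self_pow₀ h0 hn.ne'
      _ = ∏ _j : Fin n, m := by simp
      _ ≤ AA a (m, z) := Finset.prod_le_prod (fun _ _ => by linarith) fun j _ => by
        linarith [rr_nonneg (a j) (m, z)]
  have h2 : AA a (m, z) * AA a (-m, z) = ‖Pz a z‖ ^ 2 := AA_mul (a := a) (m, z)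
  have h3 : AA a (-m, z) ≤ ‖Pz a z‖ ^ 2 := by
    nlinarith [AA_nonneg (a := a) (-m, z)]
  have hc : Continuous fun m : ℝ => AA a (m, z) - AA a (-m, z) :=
    (AA_cont.comp (by fun_prop)).sub (AA_cont.comp (by fun_prop))
  have := intermediate_value_univ (-m) m hc (show c ∈ Icc _ _ from
    ⟨by simp only [neg_neg]; linarith [neg_abs_le c], by linarith [le_abs_self c]⟩)
  exact this

lemma mu_root (hn : 0 < n) (p : C3) :
    AA a (mu a p, p.2.2) - AA a (-mu a p, p.2.2) = ‖p.1‖ ^ 2 - ‖p.2.1‖ ^ 2 := by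
  obtain ⟨m, hm⟩ := root_ex (a := a) hn p.2.2 (‖p.1‖ ^ 2 - ‖p.2.1‖ ^ 2)
  exact (root_iff p _).mp (Classical.epsilon_spec (p := fun m : ℝ =>
    ∏ j, (K.rr a j m p.2.2 + m) - ∏ j, (K.rr a j m p.2.2 - m) = ‖p.1‖ ^ 2 - ‖p.2.1‖ ^ 2)
    ⟨m, (root_iff p m).mpr hm⟩)

/-- `p` lies over the point `q` of the orbit space -/
structure Over (a : Fin n → ℂ) (p : C3) (q : P) : Prop where
  mem : p ∈ Xs a
  z : p.2.2 = q.2
  x : ‖p.1‖ ^ 2 = AA a q
  y : ‖p.2.1‖ ^ 2 = AA a (ta q)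

lemma Over.mu_eq (hn : 0 < n) {p : C3} {q : P} (h : Over a p q) : mu a p = q.1 := by
  have h1 := mu_root (a := a) hn p
  rw [h.z, h.x, h.y] at h1
  have h2 : AA a q - AA a (ta q) = AA a (q.1, q.2) - AA a (-q.1, q.2) := rfl
  rcases lt_trichotomy (mu a p) q.1 with h3 | h3 | h3
  · linarith [root_lt (a := a) hn q.2 h3]
  · exact h3
  · linarith [root_lt (a := a) hn q.2 h3]

lemma Over.psi_eq (hn : 0 < n) {p : C3} {q : P} (h : Over a p q) : psi a p = 2 * RR a q := by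
  rw [psi, h.mu_eq hn, h.z]
  rfl

lemma over_mu (hn : 0 < n) {p : C3} (hp : p ∈ Xs a) : Over a p (mu a p, p.2.2) := by
  have h1 := mu_root (a := a) hn p
  have h2 : AA a (mu a p, p.2.2) * AA a (-mu a p, p.2.2) = ‖Pz a p.2.2‖ ^ 2 :=
    AA_mul (a := a) (mu a p, p.2.2)
  have h3 : p.1 * p.2.1 = Pz a p.2.2 := hp
  rw [← h3, norm_mul, mul_pow] at h2
  have h4 := AA_nonneg (a := a) (mu a p, p.2.2)
  have h5 := AA_nonneg (a := a) (-mu a p, p.2.2)
  have h6 : ‖p.1‖ ^ 2 = AA a (mu a p, p.2.2) := by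
    have h7 : (AA a (mu a p, p.2.2) - ‖p.1‖ ^ 2) * (AA a (mu a p, p.2.2) + ‖p.2.1‖ ^ 2) = 0 := by
      linear_combination h2 + AA a (mu a p, p.2.2) * h1
    rcases mul_eq_zero.mp h7 with h8 | h8
    · linarith
    · nlinarith [sq_nonneg ‖p.1‖, sq_nonneg ‖p.2.1‖]
  exact ⟨hp, rfl, h6, by change _ = AA a (-mu a p, p.2.2); linarith⟩

lemma Over.swap {p : C3} {q : P} (h : Over a p q) : Over a (swap p) (ta q) :=
  ⟨by have := h.mem; simp only [Xs, K.swap, mem_ofPred_eq] at this ⊢; rw [mul_comm, this], h.z, h.y,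
    by rw [ta_ta]; exact h.x⟩

/-- a section of the circle action over `μ ≥ 0` -/
def sec (a : Fin n → ℂ) (q : P) : C3 := ((√(AA a q) : ℝ), Pz a q.2 / (√(AA a q) : ℝ), q.2)

lemma norm_sec (q : P) (h : AA a q ≠ 0) : ‖(sec a q).2.1‖ ^ 2 = AA a (ta q) := by
  simp only [sec, norm_div, Complex.norm_real, Real.norm_eq_abs, div_pow, sq_abs]
  rw [Real.sq_sqrt (AA_nonneg q), ← AA_mul]
  field_simp

lemma AA_zero {q : P} (h0 : 0 ≤ q.1) (h : AA a q = 0) : AA a (ta q) = 0 :=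
  le_antisymm ((AA_le (a := a) q.2 (show -q.1 ≤ q.1 by linarith)).trans_eq h) (AA_nonneg _)

lemma over_sec {q : P} (h0 : 0 ≤ q.1) : Over a (sec a q) q := by
  refine ⟨?_, rfl, ?_, ?_⟩
  · change ((√(AA a q) : ℝ) : ℂ) * (Pz a q.2 / (√(AA a q) : ℝ)) = Pz a q.2
    by_cases h : AA a q = 0
    · have h1 := AA_mul (a := a) q
      rw [h, zero_mul] at h1
      have h2 : Pz a q.2 = 0 := by simpa using h1.symm
      simp [h2]
    · have h1 : ((√(AA a q) : ℝ) : ℂ) ≠ 0 :=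
        Complex.ofReal_ne_zero.mpr ((Real.sqrt_ne_zero (AA_nonneg q)).mpr h)
      field_simp
  · simp only [sec, Complex.norm_real, Real.norm_eq_abs, sq_abs]
    exact Real.sq_sqrt (AA_nonneg q)
  · by_cases h : AA a q = 0
    · rw [AA_zero h0 h]
      simp [sec, h]
    · exact norm_sec q h

lemma Pz_cont : Continuous (Pz a) := continuous_finsetProd _ fun j _ => by fun_prop

/-- the fold `μ ↦ |μ|` -/
def fo (q : P) : P := (|q.1|, q.2)

lemma sec_cont : Continuous fun q : P => sec a (fo q) := by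
  have c0 : Continuous fo := by unfold fo; fun_prop
  have c1 : Continuous fun q : P => ((√(AA a (fo q)) : ℝ) : ℂ) :=
    Complex.continuous_ofReal.comp (AA_cont.comp c0).sqrt
  refine c1.prodMk (Continuous.prodMk ?_ continuous_snd)
  refine continuous_iff_continuousAt.mpr fun q => ?_
  by_cases h : AA a (fo q) = 0
  · have h1 : (sec a (fo q)).2.1 = 0 := by simp [sec, h]
    change Tendsto (fun q => (sec a (fo q)).2.1) _ (𝓝 (sec a (fo q)).2.1)
    rw [h1]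
    have h2 : Continuous fun q : P => √(AA a (ta (fo q))) := (AA_cont.comp (ta_cont.comp c0)).sqrt
    have h3 := h2.tendsto q
    rw [AA_zero (abs_nonneg _) h, Real.sqrt_zero] at h3
    refine squeeze_zero_norm (fun r => ?_) h3
    rw [← (over_sec (a := a) (q := fo r) (abs_nonneg _)).y, Real.sqrt_sq (norm_nonneg _)]
  · exact (Pz_cont.comp continuous_snd).continuousAt.div c1.continuousAt
      (Complex.ofReal_ne_zero.mpr ((Real.sqrt_ne_zero (AA_nonneg _)).mpr h))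

/-- invariance under the circle action -/
def InvU (a : Fin n → ℂ) (f : C3 → ℝ) : Prop :=
  ∀ p ∈ Xs a, ∀ u : ℂ, ‖u‖ = 1 → f (u * p.1, u⁻¹ * p.2.1, p.2.2) = f p

lemma InvU.orbit {f : C3 → ℝ} (hf : InvU a f) {p p' : C3} {q : P} (h : Over a p q)
    (h' : Over a p' q) : f p' = f p := by
  have hx : ‖p'.1‖ = ‖p.1‖ :=
    (pow_left_inj₀ (norm_nonneg _) (norm_nonneg _) two_ne_zero).mp (h'.x.trans h.x.symm)
  have hy : ‖p'.2.1‖ = ‖p.2.1‖ :=
    (pow_left_inj₀ (norm_nonneg _) (norm_nonneg _) two_ne_zero).mp (h'.y.trans h.y.symm)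
  have hz : p'.2.2 = p.2.2 := h'.z.trans h.z.symm
  have hm : p'.1 * p'.2.1 = p.1 * p.2.1 := by
    have h1 : p.1 * p.2.1 = Pz a p.2.2 := h.mem
    have h2 : p'.1 * p'.2.1 = Pz a p'.2.2 := h'.mem
    rw [h1, h2, hz]
  by_cases h1 : p.1 = 0
  · have h1' : p'.1 = 0 := by rw [← norm_eq_zero, hx, h1, norm_zero]
    by_cases h2 : p.2.1 = 0
    · have h2' : p'.2.1 = 0 := by rw [← norm_eq_zero, hy, h2, norm_zero]
      rw [show p' = p from Prod.ext (h1'.trans h1.symm) (Prod.ext (h2'.trans h2.symm) hz)]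
    · have h2' : p'.2.1 ≠ 0 := by rw [← norm_ne_zero_iff, hy]; exact norm_ne_zero_iff.mpr h2
      rw [← hf p h.mem (p.2.1 / p'.2.1) (by rw [norm_div, hy, div_self (norm_ne_zero_iff.mpr h2)])]
      congr 1
      refine Prod.ext (by simp [h1, h1']) (Prod.ext ?_ hz)
      simp only
      field_simp
  · have h1' : p'.1 ≠ 0 := by rw [← norm_ne_zero_iff, hx]; exact norm_ne_zero_iff.mpr h1
    rw [← hf p h.mem (p'.1 / p.1) (by rw [norm_div, hx, div_self (norm_ne_zero_iff.mpr h1)])]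
    congr 1
    refine Prod.ext ?_ (Prod.ext ?_ hz)
    · simp only
      field_simp
    · simp only
      field_simp
      linear_combination hm

/-- the function on the orbit space induced by `f` -/
def Wf (a : Fin n → ℂ) (f : C3 → ℝ) (q : P) : ℝ := f (sec a (fo q))

lemma Wf_eq {f : C3 → ℝ} (hf : InvU a f) (hs : ∀ p ∈ Xs a, f (swap p) = f p) {p : C3} {q : P}
    (h : Over a p q) : Wf a f q = f p := by
  have h0 := over_sec (a := a) (q := fo q) (abs_nonneg _)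
  rcases le_total 0 q.1 with h1 | h1
  · have h2 : fo q = q := by simp [fo, abs_of_nonneg h1]
    rw [Wf]
    rw [h2] at h0 ⊢
    exact hf.orbit h h0
  · have h2 : fo q = ta q := by simp [fo, ta, abs_of_nonpos h1]
    rw [Wf]
    rw [h2] at h0 ⊢
    rw [← hs p h.mem]
    exact hf.orbit h.swap h0

lemma Wf_ta (f : C3 → ℝ) (q : P) : Wf a f (ta q) = Wf a f q := by simp [Wf, fo, ta]

lemma Wf_cont {f : C3 → ℝ} (hf : ContinuousOn f (Xs a)) : Continuous (Wf a f) :=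
  hf.comp_continuous sec_cont fun q => (over_sec (a := a) (q := fo q) (abs_nonneg _)).mem

lemma psi_invU (hn : 0 < n) : InvU a (psi a) := by
  intro p hp u hu
  have h := over_mu hn hp
  have hu0 : u ≠ 0 := by rintro rfl; simp at hu
  have h' : Over a (u * p.1, u⁻¹ * p.2.1, p.2.2) (mu a p, p.2.2) := by
    refine ⟨?_, rfl, ?_, ?_⟩
    · have h1 : p.1 * p.2.1 = Pz a p.2.2 := hp
      change u * p.1 * (u⁻¹ * p.2.1) = Pz a p.2.2
      rw [← h1]
      field_simp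
    · rw [← h.x]; simp [hu]
    · rw [← h.y]; simp [hu]
  rw [h.psi_eq hn, h'.psi_eq hn]

lemma psi_swap (hn : 0 < n) {p : C3} (hp : p ∈ Xs a) : psi a (swap p) = psi a p := by
  have h := over_mu hn hp
  rw [h.psi_eq hn, h.swap.psi_eq hn, RR_ta]

/-- rotational symmetry of the centres -/
def Sym (a : Fin n → ℂ) (ζ : ℂ) : Prop :=
  ‖ζ‖ = 1 ∧ ζ ≠ 1 ∧ ζ ^ n = 1 ∧ ∃ π : Equiv.Perm (Fin n), ∀ j, a (π j) = ζ * a j

lemma rr_rot {ζ : ℂ} (hζ : ‖ζ‖ = 1) (c : ℂ) (q : P) : rr (ζ * c) (q.1, ζ * q.2) = rr c q := by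
  simp [rr, ← mul_sub, hζ]

lemma Sym.AA_rot {ζ : ℂ} (h : Sym a ζ) (q : P) : AA a (q.1, ζ * q.2) = AA a q := by
  obtain ⟨h1, -, -, π, hπ⟩ := h
  rw [AA, ← Equiv.prod_comp π]
  simp only [hπ, rr_rot h1, AA]

lemma Sym.RR_rot {ζ : ℂ} (h : Sym a ζ) (q : P) : RR a (q.1, ζ * q.2) = RR a q := by
  obtain ⟨h1, -, -, π, hπ⟩ := h
  rw [RR, ← Equiv.sum_comp π]
  simp only [hπ, rr_rot h1, RR]

lemma Sym.Pz_rot {ζ : ℂ} (h : Sym a ζ) (z : ℂ) : Pz a (ζ * z) = Pz a z := by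
  obtain ⟨-, -, h3, π, hπ⟩ := h
  rw [Pz, ← Equiv.prod_comp π]
  simp only [hπ, ← mul_sub, Finset.prod_mul_distrib, Finset.prod_const, Finset.card_univ,
    Fintype.card_fin, h3, one_mul, Pz]

lemma Sym.sum_zero {ζ : ℂ} (h : Sym a ζ) : ∑ j, a j = 0 := by
  obtain ⟨-, h2, -, π, hπ⟩ := h
  have h1 : ∑ j, a j = ζ * ∑ j, a j := by
    rw [Finset.mul_sum, ← Equiv.sum_comp π]
    simp only [hπ]
  have h3 : (ζ - 1) * ∑ j, a j = 0 := by linear_combination -h1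
  exact (mul_eq_zero.mp h3).resolve_left (sub_ne_zero.mpr h2)

lemma Over.rot {ζ : ℂ} (hs : Sym a ζ) {p : C3} {q : P} (h : Over a p q) :
    Over a (p.1, p.2.1, ζ * p.2.2) (q.1, ζ * q.2) :=
  ⟨by have := h.mem; simp only [Xs, mem_ofPred_eq] at this ⊢; rw [hs.Pz_rot, this], by rw [h.z],
    by rw [hs.AA_rot]; exact h.x, h.y.trans (hs.AA_rot (ta q)).symm⟩

lemma psi_rot (hn : 0 < n) {ζ : ℂ} (hs : Sym a ζ) {p : C3} (hp : p ∈ Xs a) :
    psi a (p.1, p.2.1, ζ * p.2.2) = psi a p := by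
  have h := over_mu hn hp
  rw [h.psi_eq hn, (h.rot hs).psi_eq hn, hs.RR_rot]

end

end Pool.Agent.MP_67f0e4_gt.H73
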