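import Pool.Agent.MP_67f0e4_gt.H73.OscP
import Pool.Agent.MP_67f0e4_gt.H73.Sec
import Pool.Agent.MP_67f0e4_gt.K.Alg

/-! Block I (ii): the oscillation of `f - ψ` on sublevel sets of `ψ`. -/

namespace Pool.Agent.MP_67f0e4_gt.H73

open Set Filter Topology
open scoped ContDiff
open K (V C3 Hm Pz Xs mu psi swap lv lev hdet hmix qf Par XSm0 XCl Cl RFlat Pos)

noncomputable section

variable {n : ℕ} {a : Fin n → ℂ}

/-- the chart `(log x, z)` of `x ≠ 0` -/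
def NX (a : Fin n → ℂ) (x : V) : C3 := (Complex.exp x.1, Pz a x.2 * Complex.exp (-x.1), x.2)

lemma Pz_hol : ContDiff ℂ ∞ (Pz a) := contDiff_prod fun _ _ => contDiff_id.sub contDiff_const

lemma NX_hol : ContDiff ℂ ∞ (NX a) :=
  contDiff_fst.cexp.prodMk (((Pz_hol.comp contDiff_snd).mul contDiff_fst.neg.cexp).prodMk
    contDiff_snd)

lemma NX_mem (x : V) : NX a x ∈ Xs a := by
  change Complex.exp x.1 * (Pz a x.2 * Complex.exp (-x.1)) = Pz a x.2
  rw [Complex.exp_neg]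
  field_simp

lemma NX_par : Par (Xs a) (NX a) univ := by
  refine ⟨isOpen_univ, NX_hol.contDiffOn, fun x _ => NX_mem x, fun x _ => ?_⟩
  have h := (NX_hol (a := a).differentiable (by simp) x).hasFDerivAt
  have h1 := h.fst.unique (hasFDerivAt_fst (𝕜 := ℂ) (p := x)).cexp
  have h2 := h.snd.snd.unique (hasFDerivAt_snd (𝕜 := ℂ) (p := x))
  rw [injective_iff_map_eq_zero]
  intro v hv
  have k1 := congrArg (fun L : V →L[ℂ] ℂ => L v) h1
  have k2 := congrArg (fun L : V →L[ℂ] ℂ => L v) h2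
  simp only [ContinuousLinearMap.comp_apply, hv, map_zero] at k1 k2
  refine Prod.ext ?_ k2.symm
  simpa using k1.symm

/-- `(l, z) ↦ (l / 2, z)` -/
def LL : P →L[ℝ] V :=
  (Complex.ofRealCLM.comp ((1 / 2 : ℝ) • ContinuousLinearMap.fst ℝ ℝ ℂ)).prod
    (ContinuousLinearMap.snd ℝ ℝ ℂ)

/-- `(w, z) ↦ (2 Re w, z)` -/
def MM : V →L[ℝ] P :=
  ((2 : ℝ) • Complex.reCLM.comp (ContinuousLinearMap.fst ℝ ℂ ℂ)).prod
    (ContinuousLinearMap.snd ℝ ℂ ℂ)

lemma LL_apply (r : P) : LL r = (((r.1 / 2 : ℝ) : ℂ), r.2) := by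
  simp [LL, div_eq_inv_mul]

lemma MM_apply (x : V) : MM x = (2 * x.1.re, x.2) := by simp [MM]

lemma MM_LL (r : P) : MM (LL r) = r := by
  rw [MM_apply, LL_apply, Complex.ofReal_re]
  exact Prod.ext (by ring) rfl

/-- an invariant function in the coordinates `(log |x|², z)` -/
def GG (a : Fin n → ℂ) (f : C3 → ℝ) (r : P) : ℝ := f (NX a (LL r))

lemma GG_smooth {f : C3 → ℝ} (hf : XSm0 (Xs a) f) : ContDiff ℝ 2 (GG a f) :=
  ((contDiffOn_univ.mp (hf _ _ NX_par)).of_le (WithTop.coe_le_coe.mpr le_top)).comp LL.contDiff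

lemma comp_NX {f : C3 → ℝ} (hf : InvU a f) : f ∘ NX a = fun x => GG a f (MM x) := by
  funext x
  have h := hf (NX a (LL (MM x))) (NX_mem _) (Complex.exp (x.1.im * Complex.I))
    (Complex.norm_exp_ofReal_mul_I _)
  rw [GG, ← h, Function.comp_apply]
  have h1 : LL (MM x) = ((x.1.re : ℂ), x.2) := by
    rw [LL_apply, MM_apply]
    simp
  have h2 : Complex.exp x.1 = Complex.exp (x.1.im * Complex.I) * Complex.exp x.1.re := by
    rw [← Complex.exp_add, add_comm, Complex.re_add_im]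
  rw [h1]
  simp only [NX, Complex.exp_neg, h2]
  congr 3
  field_simp

lemma DD_eq {F : V → ℝ} {x : V} (h : ContDiffAt ℝ 2 F x) (v w : V) :
    K.D v (K.D w F) x = D2 F x v w :=
  (D2_eq h v w (Eventually.of_forall fun _ => rfl)
    ((hasF2 h).clm_apply (hasFDerivAt_const w x)).differentiableAt.hasFDerivAt).symm

lemma lv_MM {G : P → ℝ} (hG : ContDiff ℝ 2 G) (x : V) :
    lv (fun x => G (MM x)) x = ![4 * D2 G (MM x) e0 e0, D2 G (MM x) e1 e1 + D2 G (MM x) e2 e2,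
      2 * D2 G (MM x) e0 e1, 2 * D2 G (MM x) e0 e2] := by
  have h0 : ContDiffAt ℝ 2 (fun x => G (MM x)) x := (hG.comp MM.contDiff).contDiffAt
  have m0 : MM (K.e 0) = (2 : ℝ) • e0 := by simp [MM_apply, K.e, e0]
  have m1 : MM (K.e 1) = 0 := by simp [MM_apply, K.e]
  have m2 : MM (K.e 2) = e1 := by simp [MM_apply, K.e, e1]
  have m3 : MM (K.e 3) = e2 := by simp [MM_apply, K.e, e2]
  simp only [lv, lev, DD_eq h0, D2_clm MM hG.contDiffAt, K.I_e0, K.I_e2, K.I_e3, m0, m1, m2, m3]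
  refine K.Hm_ext ?_ ?_ ?_ ?_ <;> simp [D2]
  ring

lemma over_Th {q : P} (h : q ∈ Up a) : Over a (NX a (LL (Th a q))) q := by
  have h1 : Real.exp (ll a q) = AA a q := by
    rw [ll, Real.exp_sum, AA]
    exact Finset.prod_congr rfl fun j _ => Real.exp_log (h j)
  have h2 : ‖Complex.exp ((ll a q / 2 : ℝ) : ℂ)‖ ^ 2 = AA a q := by
    rw [Complex.norm_exp_ofReal, ← Real.exp_nat_mul, ← h1]
    congr 1
    push_cast
    ring
  have h3 := Up_iff.mp h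
  refine ⟨NX_mem _, rfl, ?_, ?_⟩
  · rw [LL_apply]
    exact h2
  · rw [LL_apply]
    change ‖Pz a q.2 * Complex.exp (-((ll a q / 2 : ℝ) : ℂ))‖ ^ 2 = _
    rw [Complex.exp_neg, norm_mul, norm_inv, mul_pow, inv_pow, h2, ← AA_mul]
    field_simp

lemma abs_hdet_le {h : ℝ} {g g0 : Hm} (H : Cl h g g0) : |hdet (g - g0)| ≤ h ^ 2 * hdet g0 := by
  have n1 : K.NN (h • g0 + (g - g0)) := fun v => by
    rw [K.qf_add, K.qf_smul, K.qf_sub]; linarith [(abs_le.mp (H v)).1]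
  have n2 : K.NN (h • g0 - (g - g0)) := fun v => by
    rw [K.qf_sub, K.qf_smul, K.qf_sub]; linarith [(abs_le.mp (H v)).2]
  have d1 := n1.det
  have d2 := n2.det
  have d3 := K.hmix_nonneg n1 n2
  generalize g - g0 = k at d1 d2 d3
  simp only [hdet, hmix, Pi.add_apply, Pi.sub_apply, Pi.smul_apply, smul_eq_mul] at d1 d2 d3 ⊢
  exact abs_le.mpr ⟨by linarith, by linarith⟩

lemma abs_det_sub {x y η : ℝ} (hx : 0 < x) (hy : 0 < y) (hη : η ≤ 1)
    (h : |Real.log x - Real.log y| ≤ η) : |x - y| ≤ 2 * η * y := by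
  have h1 : x = y * Real.exp (Real.log x - Real.log y) := by
    rw [Real.exp_sub, Real.exp_log hx, Real.exp_log hy]
    field_simp
  have h2 := Real.abs_exp_sub_one_le (x := Real.log x - Real.log y) (h.trans hη)
  have h3 : x - y = y * (Real.exp (Real.log x - Real.log y) - 1) := by linear_combination h1
  rw [h3, abs_mul, abs_of_pos hy]
  nlinarith

/-- the function `f - ψ` on the orbit space -/
def WW (a : Fin n → ℂ) (f : C3 → ℝ) (q : P) : ℝ := Wf a f q - 2 * RR a q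

lemma WW_ta (f : C3 → ℝ) (q : P) : WW a f (ta q) = WW a f q := by rw [WW, WW, Wf_ta, RR_ta]

lemma lap_up (hn : 0 < n) (hψ : RFlat (Xs a) (psi a)) {f : C3 → ℝ} (hf : XSm0 (Xs a) f)
    (hU : InvU a f) (hs : ∀ p ∈ Xs a, f (swap p) = f p) {q : P} (hq : q ∈ Up a) {h η : ℝ}
    (hh : h < 1) (hη : η ≤ 1) (h1 : XCl (Xs a) h f (psi a) (NX a (LL (Th a q))))
    (h2 : |Real.log (hdet (lv (f ∘ NX a) (LL (Th a q)))) -
      Real.log (hdet (lv (psi a ∘ NX a) (LL (Th a q))))| ≤ η) :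
    ContDiffAt ℝ 2 (WW a f) q ∧ |lap (WW a f) q| ≤ (2 * η + h ^ 2) * (2 * VV a q) := by
  have : Nonempty (Fin n) := ⟨⟨0, hn⟩⟩
  have sf := GG_smooth hf
  have sp := GG_smooth hψ.1
  have sK : ContDiff ℝ 2 fun r => 1 / 2 * GG a (psi a) r := contDiff_const.mul sp
  have sG : ContDiff ℝ 2 fun r => GG a f r + -1 * GG a (psi a) r :=
    sf.add (contDiff_const.mul sp)
  have hK : ∀ r ∈ Up a, (fun r => 1 / 2 * GG a (psi a) r) (Th a r) = RR a r := fun r hr => by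
    simp only [GG, (over_Th hr).psi_eq hn]
    ring
  have ev : WW a f =ᶠ[𝓝 q] fun r => (fun r => GG a f r + -1 * GG a (psi a) r) (Th a r) := by
    filter_upwards [Up_open.mem_nhds hq] with r hr
    simp only [WW, GG, Wf_eq hU hs (over_Th hr), (over_Th hr).psi_eq hn]
    ring
  refine ⟨(sG.contDiffAt.comp q (Th_c2 hq)).congr_of_eventuallyEq ev, ?_⟩
  have e1' : lap (WW a f) q =
      lap (fun r => (fun r => GG a f r + -1 * GG a (psi a) r) (Th a r)) q := by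
    simp only [lap, D2_congr ev]
  have kl := K_lap hq sK.contDiffAt hK sG.contDiffAt
  have km := K_MA hq sK.contDiffAt hK
  simp only [D2_add sf.contDiffAt (contDiff_const.mul sp).contDiffAt,
    D2_const_mul sp.contDiffAt] at kl km
  have c := h1 _ _ NX_par _ (mem_univ _) rfl
  have p0 := (hψ.2 _ _ NX_par (LL (Th a q)) (mem_univ _)).1
  have p1 := c.isPos p0 hh
  have b1 := abs_hdet_le c
  have b2 := abs_det_sub p1.det p0.det hη h2
  rw [comp_NX hU, comp_NX (psi_invU hn), lv_MM sf, lv_MM sp, MM_LL] at b1 b2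
  simp only [hdet, Pi.sub_apply, Matrix.cons_val] at b1 b2
  have hV := VV_pos hq
  rw [e1', kl, abs_mul, abs_of_pos hV, mul_comm, ← mul_assoc]
  refine mul_le_mul_of_nonneg_right ?_ hV.le
  generalize D2 (GG a f) (Th a q) e0 e0 = f0, D2 (GG a f) (Th a q) e0 e1 = f1,
    D2 (GG a f) (Th a q) e0 e2 = f2, D2 (GG a f) (Th a q) e1 e1 = f3,
    D2 (GG a f) (Th a q) e2 e2 = f4, D2 (GG a (psi a)) (Th a q) e0 e0 = g0,
    D2 (GG a (psi a)) (Th a q) e0 e1 = g1, D2 (GG a (psi a)) (Th a q) e0 e2 = g2,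
    D2 (GG a (psi a)) (Th a q) e1 e1 = g3, D2 (GG a (psi a)) (Th a q) e2 e2 = g4 at *
  have hd : 4 * g0 * (g3 + g4) - (2 * g1) ^ 2 - (2 * g2) ^ 2 = 16 := by linear_combination 16 * km
  rw [hd] at b1 b2
  obtain ⟨b3, b4⟩ := abs_le.mp b1
  obtain ⟨b5, b6⟩ := abs_le.mp b2
  exact abs_le.mpr ⟨by linarith, by linarith⟩

/-- the reflection as a linear map -/
def taL : P →L[ℝ] P := (-ContinuousLinearMap.fst ℝ ℝ ℂ).prod (ContinuousLinearMap.snd ℝ ℝ ℂ)

lemma lap_ta {W : P → ℝ} (hW : ∀ q, W (ta q) = W q) {q : P} (h : ContDiffAt ℝ 2 W (ta q)) :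
    ContDiffAt ℝ 2 W q ∧ lap W q = lap W (ta q) := by
  have e : W = fun r => W (taL r) := funext fun r => (hW r).symm
  have h' : ContDiffAt ℝ 2 W (taL q) := h
  refine ⟨by rw [e]; exact h'.comp q taL.contDiff.contDiffAt, ?_⟩
  have m0 : taL e0 = -e0 := by simp [taL, e0]
  have m1 : taL e1 = e1 := by simp [taL, e1]
  have m2 : taL e2 = e2 := by simp [taL, e2]
  conv_lhs => rw [e]
  simp only [lap, D2_clm taL h', m0, m1, m2]
  simp [D2]
  rfl

lemma rr_norm (c : ℂ) (q : P) : rr c q = ‖toP.symm q - WithLp.toLp 2 ((0 : ℝ), c)‖ := by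
  rw [norm_sub_c, toP.apply_symm_apply]

lemma rr_le (c : ℂ) (q : P) : rr c q ≤ rr 0 q + ‖c‖ := by
  have h := norm_sub_le (toP.symm q) (WithLp.toLp 2 ((0 : ℝ), c))
  rw [← rr_norm, norm_E3, norm_E3, toP.apply_symm_apply] at h
  refine h.trans_eq ?_
  simp [rr, toP]

lemma RR_le (q : P) : RR a q ≤ n * rr 0 q + ∑ j, ‖a j‖ := by
  refine (Finset.sum_le_sum fun j _ => rr_le (a j) q).trans_eq ?_
  simp [Finset.sum_add_distrib]

lemma le_RR (h : ∑ j, a j = 0) (q : P) : n * rr 0 q ≤ RR a q := by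
  have h1 : ∑ j, (toP.symm q - WithLp.toLp 2 ((0 : ℝ), a j)) = (n : ℝ) • toP.symm q := by
    apply toP.injective
    rw [map_sum, map_smul]
    simp only [map_sub, toP.apply_symm_apply, Finset.sum_sub_distrib]
    have h2 : ∑ j, toP (WithLp.toLp 2 ((0 : ℝ), a j)) = 0 :=
      Prod.ext (by simp [Prod.fst_sum, toP]) (by simp [Prod.snd_sum, toP, h])
    rw [h2]
    simp [Nat.cast_smul_eq_nsmul]
  have h3 := norm_sum_le Finset.univ fun j => toP.symm q - WithLp.toLp 2 ((0 : ℝ), a j)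
  rw [h1, norm_smul, norm_E3, toP.apply_symm_apply] at h3
  simp only [← rr_norm] at h3
  simpa [RR] using h3

/-- invariance under the symmetries of the surface -/
structure Inv (a : Fin n → ℂ) (ζ : ℂ) (f : C3 → ℝ) : Prop where
  circ : InvU a f
  sw : ∀ p ∈ Xs a, f (swap p) = f p
  rot : ∀ p ∈ Xs a, f (p.1, p.2.1, ζ * p.2.2) = f p

theorem osc_psi (hn : 0 < n) (ha : Function.Injective a) {ζ : ℂ} (hs : Sym a ζ)
    (hψ : RFlat (Xs a) (psi a)) : ∃ C ρ₁ : ℝ, 0 < C ∧ 0 < ρ₁ ∧ ∀ (f : C3 → ℝ) (ρ₀ h ε : ℝ),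
    ρ₁ ≤ ρ₀ → h < 1 → 0 ≤ ε → ε ≤ 1 → XSm0 (Xs a) f → ContinuousOn f (Xs a) → Inv a ζ f →
    (∀ p ∈ Xs a, psi a p ≤ ρ₀ → XCl (Xs a) h f (psi a) p) →
    (∀ N U, Par (Xs a) N U → ∀ x ∈ U, psi a (N x) ≤ ρ₀ →
      |Real.log (hdet (lv (f ∘ N) x)) - Real.log (hdet (lv (psi a ∘ N) x))| ≤ ε) →
    (∀ p ∈ Xs a, ∀ p' ∈ Xs a, psi a p ≤ ρ₀ → psi a p' ≤ ρ₀ →
      (f p - psi a p) - (f p' - psi a p') ≤ ε * ρ₀) →
    ∀ ρ, 0 < ρ → ρ ≤ ρ₀ → ∀ p ∈ Xs a, ∀ p' ∈ Xs a, psi a p ≤ ρ → psi a p' ≤ ρ →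
      (f p - psi a p) - (f p' - psi a p') ≤ C * (ε + h ^ 2) * ρ := by
  obtain ⟨C, hC, H⟩ := oscP
  obtain ⟨α, hα⟩ : ∃ α : ℝ, α = ∑ j, ‖a j‖ := ⟨_, rfl⟩
  have hα0 : 0 ≤ α := hα ▸ Finset.sum_nonneg fun _ _ => norm_nonneg _
  have hn' : (0 : ℝ) < n := Nat.cast_pos.mpr hn
  refine ⟨3 * C + 2, 4 * α + 1, by positivity, by positivity, ?_⟩
  intro f ρ₀ h ε hρ hh hε0 hε hf hc hI h1 h2 h3 ρ hρ0 hρ1 p hp p' hp' k k'
  have hh2 := sq_nonneg h
  rcases le_total ρ (ρ₀ / 2) with hr | hr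
  swap
  · refine (h3 p hp p' hp' (k.trans hρ1) (k'.trans hρ1)).trans ?_
    have : ε * ρ₀ ≤ ε * (2 * ρ) := mul_le_mul_of_nonneg_left (by linarith) hε0
    have : 0 ≤ (3 * C * (ε + h ^ 2) + 2 * h ^ 2) * ρ := by positivity
    nlinarith
  have hR : ∀ q : P, rr 0 q ≤ ρ₀ / (4 * n) → 2 * RR a q ≤ ρ₀ := fun q hq => by
    have h4 := RR_le (a := a) q
    rw [le_div_iff₀ (by positivity)] at hq
    linarith
  have hW : ∀ {p : C3} {q : P}, Over a p q → WW a f q = f p - psi a p := fun o => by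
    rw [WW, Wf_eq hI.circ hI.sw o, o.psi_eq hn]
  have hO : ∀ q : P, ∃ p, Over a p q := fun q => by
    rcases le_total 0 q.1 with h4 | h4
    · exact ⟨_, over_sec h4⟩
    · have := (over_sec (a := a) (q := ta q) (neg_nonneg.mpr h4)).swap
      exact ⟨_, by rwa [ta_ta] at this⟩
  have hup : ∀ q ∈ Up a, 2 * RR a q ≤ ρ₀ → ContDiffAt ℝ 2 (WW a f) q ∧
      |lap (WW a f) q| ≤ (2 * ε + h ^ 2) * (2 * VV a q) := fun q hq h4 => by
    have h5 : psi a (NX a (LL (Th a q))) ≤ ρ₀ := by rw [(over_Th hq).psi_eq hn]; exact h4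
    exact lap_up hn hψ hf hI.circ hI.sw hq hh hε (h1 _ (NX_mem _) h5)
      (h2 _ _ NX_par _ (mem_univ _) h5)
  have hb : ∀ {p : C3}, p ∈ Xs a → psi a p ≤ ρ → rr 0 (mu a p, p.2.2) ≤ ρ / (2 * n) := by
    intro p hp k
    have h4 := le_RR hs.sum_zero (mu a p, p.2.2)
    rw [(over_mu hn hp).psi_eq hn] at k
    rw [le_div_iff₀ (by positivity)]
    linarith
  have key := H n a ζ (WW a f) (ρ₀ / (4 * n)) (2 * ε + h ^ 2) (4 * n * ε) ha hs.1 hs.2.1
    (by positivity) ((Wf_cont hc).sub (continuous_const.mul RR_cont)) ?_ (WW_ta f) ?_ ?_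
    (ρ / (2 * n)) (by positivity) ?_ _ _ (hb hp k) (hb hp' k')
  · rw [hW (over_mu hn hp), hW (over_mu hn hp')] at key
    refine key.trans ?_
    have e : C * (4 * n * ε + n * (2 * ε + h ^ 2)) * (ρ / (2 * n)) =
        C * (3 * ε + h ^ 2 / 2) * ρ := by
      field_simp
      ring
    rw [e]
    refine mul_le_mul_of_nonneg_right ?_ hρ0.le
    nlinarith [mul_nonneg hC.le hh2]
  · intro q hq hr0
    have h4 := hR q hq.le
    rcases le_total 0 q.1 with h5 | h5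
    · exact hup q (fun j => add_pos_of_pos_of_nonneg (hr0 j) h5) h4
    · obtain ⟨h6, h7⟩ := hup (ta q) (fun j => add_pos_of_pos_of_nonneg
        (by rw [rr_ta]; exact hr0 j) (neg_nonneg.mpr h5)) (by rwa [RR_ta])
      obtain ⟨h8, h9⟩ := lap_ta (WW_ta f) h6
      exact ⟨h8, by rwa [h9, ← VV_ta]⟩
  · intro q
    obtain ⟨p, o⟩ := hO q
    rw [hW o, hW (o.rot hs), hI.rot p o.mem, psi_rot hn hs o.mem]
  · intro q q' hq hq'
    obtain ⟨p, o⟩ := hO q
    obtain ⟨p', o'⟩ := hO q'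
    rw [hW o, hW o']
    refine (h3 p o.mem p' o'.mem (by rw [o.psi_eq hn]; exact hR q hq)
      (by rw [o'.psi_eq hn]; exact hR q' hq')).trans_eq ?_
    field_simp
  · rw [div_le_div_iff₀ (by positivity) (by positivity)]
    nlinarith

end

end Pool.Agent.MP_67f0e4_gt.H73
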