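import Pool.Agent.MP_67f0e4_gt.H71.Int
import Pool.Agent.MP_67f0e4_gt.K.Chart
import Pool.Agent.MP_67f0e4_gt.K.Spec

/-! The inner estimate at the final time. -/

namespace Pool.Agent.MP_67f0e4_gt.H73.In

open Set Filter Topology Metric K
open scoped ContDiff

noncomputable section

variable {f g : V → ℝ} {U : Set V} {k : ℕ} {M M' : ℝ}

lemma DL_const_mul (c : ℝ) (f : V → ℝ) (l : List (Fin 4)) :
    DL l (fun y => c * f y) = fun y => c * DL l f y := by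
  induction l with
  | nil => rfl
  | cons i l ih => rw [DL, ih, D_const_mul, DL]

lemma D_scale (r : ℝ) (f : V → ℝ) (v : V) :
    D v (fun y => f (r • y)) = fun y => r * D v f (r • y) := by
  funext y
  simp only [D, fderiv_comp_smul, smul_apply, smul_eq_mul]

lemma DL_scale (r : ℝ) (f : V → ℝ) (l : List (Fin 4)) :
    DL l (fun y => f (r • y)) = fun y => r ^ l.length * DL l f (r • y) := by
  induction l with
  | nil => simp [DL]
  | cons i l ih =>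
    rw [DL, ih, D_const_mul, D_scale r (DL l f), DL]
    funext y
    rw [List.length_cons, pow_succ, mul_assoc]

lemma lv_scale (r : ℝ) (f : V → ℝ) (x : V) :
    lv (fun y => f (r • y)) x = r ^ 2 • lv f (r • x) := by
  have h : ∀ v w, D v (D w fun y => f (r • y)) x = r ^ 2 * D v (D w f) (r • x) := fun v w => by
    rw [D_scale, D_const_mul, D_scale r (D w f)]
    ring
  refine Hm_ext ?_ ?_ ?_ ?_ <;>
    simp only [lv, lev, h, Matrix.cons_val, Pi.smul_apply, smul_eq_mul] <;> ring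

lemma LB_scale {r : ℝ} (h0 : 0 < r) (h1 : r ≤ 1) (h : LB k M f (ball 0 r)) :
    LB k M (fun y => f (r • y)) (ball 0 1) := by
  intro l hl α x hx
  have e : (fun y => lv (fun y => f (r • y)) y α) =
      fun y => r ^ 2 * (fun z => lv f z α) (r • y) := by
    funext y
    rw [lv_scale]
    rfl
  have hx' : r • x ∈ ball (0 : V) r := by
    rw [mem_ball_zero_iff] at hx ⊢
    rw [norm_smul, Real.norm_of_nonneg h0.le]
    exact mul_lt_of_lt_one_right h0 hx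
  have h2 := h l hl α _ hx'
  rw [e, DL_const_mul, DL_scale r (fun z => lv f z α)]
  simp only
  rw [← mul_assoc, ← pow_add, abs_mul, abs_of_pos (pow_pos h0 _)]
  exact (mul_le_of_le_one_left (abs_nonneg _) (pow_le_one₀ h0.le h1)).trans h2

lemma LB_congr (hU : IsOpen U) (h : ∀ x ∈ U, g x = f x) (H : LB k M f U) : LB k M g U := by
  intro l hl α x hx
  have h1 : g =ᶠ[𝓝 x] f := (hU.eventually_mem hx).mono h
  have h2 : (fun y => lv g y α) =ᶠ[𝓝 x] fun y => lv f y α :=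
    (lv_congr_ev h1).mono fun y hy => congrFun hy α
  rw [(DL_congr_ev h2 l).self_of_nhds]
  exact H l hl α x hx

lemma LB_const_mul {c : ℝ} (hc : 0 ≤ c) (H : LB k M f U) : LB k (c * M) (fun y => c * f y) U := by
  intro l hl α x hx
  have e : (fun y => lv (fun y => c * f y) y α) = fun y => c * lv f y α := by
    funext y
    rw [lv_const_mul]
    rfl
  rw [e, DL_const_mul, abs_mul, abs_of_nonneg hc]
  exact mul_le_mul_of_nonneg_left (H l hl α x hx) hc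

lemma DL_sub {x : V} (hf : ContDiffAt ℝ ∞ f x) (hg : ContDiffAt ℝ ∞ g x) (hU : IsOpen U)
    (hx : x ∈ U) (sf : ∀ y ∈ U, ContDiffAt ℝ ∞ f y) (sg : ∀ y ∈ U, ContDiffAt ℝ ∞ g y)
    (l : List (Fin 4)) : DL l (fun y => f y - g y) x = DL l f x - DL l g x := by
  induction l generalizing x with
  | nil => rfl
  | cons i l ih =>
    have h1 : DL l (fun y => f y - g y) =ᶠ[𝓝 x] fun y => DL l f y - DL l g y :=
      (hU.eventually_mem hx).mono fun y hy => ih (sf y hy) (sg y hy) hy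
    rw [DL, D_congr h1, D_sub ((DL_smooth hf l).differentiableAt (by simp))
      ((DL_smooth hg l).differentiableAt (by simp))]
    rfl

lemma LB_sub (hU : IsOpen U) (hf : ContDiffOn ℝ ∞ f U) (hg : ContDiffOn ℝ ∞ g U)
    (H : LB k M f U) (H' : LB k M' g U) : LB k (M + M') (fun y => f y - g y) U := by
  intro l hl α x hx
  have sf : ∀ y ∈ U, ContDiffAt ℝ ∞ f y := fun y hy => hf.contDiffAt (hU.mem_nhds hy)
  have sg : ∀ y ∈ U, ContDiffAt ℝ ∞ g y := fun y hy => hg.contDiffAt (hU.mem_nhds hy)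
  have lf : ∀ y ∈ U, ContDiffAt ℝ ∞ (fun y => lv f y α) y := fun y hy =>
    contDiffAt_pi.mp (lv_smooth (sf y hy)) α
  have lg : ∀ y ∈ U, ContDiffAt ℝ ∞ (fun y => lv g y α) y := fun y hy =>
    contDiffAt_pi.mp (lv_smooth (sg y hy)) α
  have h2 : (fun y => lv (fun y => f y - g y) y α) =ᶠ[𝓝 x] fun y => lv f y α - lv g y α :=
    (hU.eventually_mem hx).mono fun y hy => by
      simp only
      rw [lv_sub ((sf y hy).of_le two_le_inf) ((sg y hy).of_le two_le_inf)]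
      rfl
  rw [(DL_congr_ev h2 l).self_of_nhds, DL_sub (lf x hx) (lg x hx) hU hx lf lg]
  exact (abs_sub _ _).trans (add_le_add (H l hl α x hx) (H' l hl α x hx))

lemma LB_mono {U' : Set V} (H : LB k M f U) (hU : U' ⊆ U) (hM : M ≤ M') : LB k M' f U' :=
  fun l hl α x hx => (H l hl α x (hU hx)).trans hM

lemma Cl_nn {d : ℝ} {g h : Hm} (hd : 0 < d) (H : Cl d g h) : NN h := fun v =>
  nonneg_of_mul_nonneg_right ((abs_nonneg _).trans (H v)) hd

lemma nice_one {N : ℕ → ℝ} {κ ρ : ℝ} {σ : V → ℝ} (hρ : 0 < ρ) (h1 : 1 ≤ κ) (h2 : κ ≤ 2)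
    (H : Nice N κ ρ σ) : Nice (fun k => 2 * N k) 1 ρ σ := by
  have h0 : ∀ k, 0 ≤ N k := fun k =>
    (abs_nonneg _).trans (H.d2 k [] (Nat.zero_le _) 0 0 (mem_ball_self hρ))
  refine ⟨H.sm, fun l hl x hx => (H.d1 l hl x hx).trans (by nlinarith [h0 l.length]),
    fun k => LB_mono (H.d2 k) Subset.rfl (by linarith [h0 k]), H.nn, fun x hx v => ?_⟩
  refine (H.ell x hx v).trans ?_
  have h3 := nn_rk σ x v
  have h4 := H.nn x hx v
  have h5 : qf (rk σ x) v / κ ^ 2 ≤ qf (rk σ x) v := div_le_self h3 (one_le_pow₀ h1)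
  rw [one_pow, div_one]
  nlinarith [h0 0, mul_le_mul_of_nonneg_left h5 (h0 0), mul_nonneg (h0 0) h3, mul_nonneg (h0 0) h4]

lemma nice_lip {N : ℕ → ℝ} {ρ : ℝ} {σ : V → ℝ} (hρ : 0 < ρ) (H : Nice N 1 ρ σ) {y : V}
    (hy : y ∈ ball (0 : V) ρ) : σ y - σ 0 ≤ 4 * N 1 * ‖y‖ := by
  have z : (0 : V) ∈ ball (0 : V) ρ := mem_ball_self hρ
  have h0 : 0 ≤ N 1 := (abs_nonneg _).trans (H.d2 1 [] (Nat.zero_le _) 0 0 z)
  have h := (convex_ball (0 : V) ρ).norm_image_sub_le_of_norm_fderiv_le (𝕜 := ℝ) (f := σ)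
    (C := 4 * N 1) (fun x hx => (H.sm.contDiffAt (isOpen_ball.mem_nhds hx)).differentiableAt
      (by simp)) (fun x hx => ContinuousLinearMap.opNorm_le_bound _ (by positivity) fun v => by
        have h1 : fderiv ℝ σ x v = ∑ j, H71.co v j * D (e j) σ x := congrFun (H71.d_sum v σ) x
        rw [h1, Real.norm_eq_abs]
        refine (Finset.abs_sum_le_sum_abs _ _).trans ((Finset.sum_le_sum
          (g := fun _ => ‖v‖ * N 1) fun j _ => ?_).trans (by simp; ring_nf; rfl))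
        rw [abs_mul]
        exact mul_le_mul (H71.co_le v j) (by simpa [DL] using H.d1 [j] le_rfl x hx)
          (abs_nonneg _) (norm_nonneg _)) z hy
  rw [sub_zero] at h
  exact (le_abs_self _).trans h

lemma iter_exp (n : ℕ) : iteratedDeriv n Real.exp = Real.exp := by
  rw [iteratedDeriv_eq_iterate, Real.iter_deriv_exp]

lemma pb_exp : PB (fun _ => 1) Real.exp :=
  ⟨Real.contDiff_exp, fun s => by simp [iter_exp, Real.exp_pos], fun j s => by
    simp [iter_exp]⟩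

lemma ell_scale {Λ r : ℝ} {g : Hm} (h0 : 0 < r) (h1 : r ≤ 1) (H : EllH Λ g) :
    EllH (Λ / r ^ 2) (r ^ 2 • g) := by
  have h2 : r ^ 2 ≤ 1 := pow_le_one₀ h0.le h1
  have h3 : 0 < r ^ 2 := by positivity
  refine ⟨div_pos H.1 h3, fun v => ⟨?_, ?_⟩⟩
  · rw [qf_smul, ← mul_assoc, div_mul_cancel₀ _ h3.ne']
    exact (H.2 v).1
  · rw [qf_smul]
    refine (mul_le_of_le_one_left (H.isPos.nn v) h2).trans ((H.2 v).2.trans ?_)
    exact mul_le_mul_of_nonneg_right (le_div_self H.1.le h3 h2) (by positivity)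

variable {X : Set C3} {ψ : C3 → ℝ} {F : Fam X} {C : ℝ} {θf : ℝ → ℝ} {Kf : ℝ → ℝ → ℝ}
  {Cj : ℕ → ℝ} {u : ℝ → ℝ → ℝ}

lemma ct_eq (b t : ℝ) {x : ℝ} (hx : 0 < x) :
    cc (UJ u) t * Real.exp (Real.log x - b) = ct u b t * x := by
  rw [ct, sub_eq_add_neg, Real.exp_add, Real.exp_log hx]
  ring

/-- normalised charts on the inner ball -/
lemma nrm (hU : LU) (hD : DER) (c : Ctx X ψ F C θf Kf Cj u) : ∃ d > 0, ∃ Λ M : ℝ,
    ∀ b τ φ, Run X ψ F u b τ φ → ∀ d1, 0 < d1 → d1 ≤ d → BS X ψ u b d1 τ φ → ∀ th : ℝ,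
      th ≤ 1 / 4 → C * th ≤ 1 / 2 → ∀ p ∈ X, ct u b τ * ψ p ≤ th * (1 - 2 * τ) ^ 2 →
      Nrm X ψ (fun q => (ct u b τ)⁻¹ * φ τ q) Λ M p := by
  obtain ⟨d, hd, H1⟩ := hU
  obtain ⟨N, ρ, hρ, H2⟩ := c.geo.n2 C
  obtain ⟨r0, hr0, H3⟩ := H1 C θf Kf c.prof.cst N ρ hρ
  obtain ⟨B, H4⟩ := H3 3
  obtain ⟨r1, hr1, Λ, H5⟩ := hD (fun k => 2 * N k) (fun _ => 1) ρ hρ
  obtain ⟨B', H6⟩ := H5 3
  obtain ⟨r, h0, h1, h2, h3, h4⟩ : ∃ r : ℝ, 0 < r ∧ r ≤ 1 ∧ r ≤ r0 ∧ r ≤ r1 ∧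
      r ≤ 1 / (16 * (|N 1| + 1)) :=
    ⟨min (min 1 r0) (min r1 _), lt_min (lt_min one_pos hr0.1) (lt_min hr1.1 (by positivity)),
      (min_le_left _ _).trans (min_le_left _ _), (min_le_left _ _).trans (min_le_right _ _),
      (min_le_right _ _).trans (min_le_left _ _), (min_le_right _ _).trans (min_le_right _ _)⟩
  refine ⟨d, hd, Λ / r ^ 2, |B| + B', fun b τ φ R d1 hd1 hd2 S th t1 t2 p hp hin => ?_⟩
  have hτ : τ ∈ Icc 0 τ := ⟨R.τ0.1.le, le_rfl⟩
  have O := c.prof.on τ R.τ0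
  have E := O.est
  have p1 := c.one p hp
  have p0 : 0 < ψ p := by linarith
  have l0 := Real.log_nonneg p1
  have hc : 0 < ct u b τ := mul_pos (E.cpos τ hτ).1 (Real.exp_pos _)
  obtain ⟨e1, e2, -⟩ := E.pos (Real.log (ψ p) - b) τ hτ
  have e3 := E.cup (Real.log (ψ p) - b) τ hτ
  have e4 := E.tip (Real.log (ψ p) - b) τ hτ th t1 (by rwa [ct_eq b τ p0])
  rw [ct_eq b τ p0] at e3 e4
  have k1 : 1 ≤ kap (UJ u) (Real.log (ψ p) - b) τ :=
    Real.one_le_sqrt.mpr ((one_le_div e1).mpr e2)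
  have k2 : kap (UJ u) (Real.log (ψ p) - b) τ ≤ 2 := by
    refine Real.sqrt_le_iff.mpr ⟨zero_le_two, (div_le_iff₀ e1).mpr ?_⟩
    nlinarith [mul_pos hc p0]
  have k3 : kap (UJ u) (Real.log (ψ p) - b) τ ≤ C * (1 + Real.log (ψ p)) :=
    (E.kle _ τ hτ).trans (mul_le_mul_of_nonneg_left
      (by linarith [max_le (show Real.log (ψ p) - b ≤ Real.log (ψ p) by linarith [R.b0]) l0])
      (by linarith [c.prof.cst.1]))
  obtain ⟨T, P, rfl, nc, hpos⟩ := H2 p hp p1 _ k1 k3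
  have nc1 := nice_one hρ k1 k2 nc
  have a1 := H4 τ u (fun y => Real.log (ψ (T y))) b (fun t => φ t ∘ T) _ R.τ0.1 O nc
    (R.gf.1 T _ P) (fun x hx => by simpa [FF] using R.init _ (P.mem hx)) fun t ht x hx => by
      have h5 := S t ht _ (P.mem hx) T _ P x hx rfl
      have h6 : lv (FF ψ u b t ∘ T) x = lv (fun y => u (Real.log (ψ (T y)) - b) t) x :=
        lv_sub_const _ _ x
      rw [h6] at h5
      exact h5.mono (Cl_nn hd1 h5) hd2
  obtain ⟨a2, a3⟩ := H6 Real.exp (fun y => Real.log (ψ (T y))) pb_exp (by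
    simpa [iter_exp] using nc1)
  rw [iter_exp, Real.exp_log p0] at a2 a3
  have ee : ∀ x ∈ ball (0 : V) ρ, (ψ ∘ T) x = (Real.exp ∘ fun y => Real.log (ψ (T y))) x :=
    fun x hx => (Real.exp_log (hpos x hx)).symm
  have s0 : ball (0 : V) r ⊆ ball 0 ρ := ball_subset_ball (h2.trans hr0.2.le)
  have sm : ∀ y ∈ ball (0 : V) 1, r • y ∈ ball (0 : V) r := fun y hy => by
    rw [mem_ball_zero_iff] at hy ⊢
    rw [norm_smul, Real.norm_of_nonneg h0.le]
    exact mul_lt_of_lt_one_right h0 hy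
  refine ⟨fun y => T (r • y), ?_, congrArg T (smul_zero r), ?_, ?_, fun y hy => ?_⟩
  · have h7 := P.affine ((r : ℂ) • ContinuousLinearMap.id ℂ V) 0 (fun x y h => by
      simpa [h0.ne'] using h) isOpen_ball fun y hy => by simpa using s0 (sm y hy)
    simpa using h7
  · have h7 := a3 0 (mem_ball_self hr1.1)
    rw [← lv_congr ((isOpen_ball.eventually_mem (mem_ball_self hρ)).mono ee)] at h7
    have h8 : lv (ψ ∘ fun y => T (r • y)) 0 = r ^ 2 • lv (ψ ∘ T) 0 := by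
      have := lv_scale r (ψ ∘ T) 0
      rw [smul_zero] at this
      exact this
    rw [h8, smul_comm]
    exact ell_scale h0 h1 h7
  · have b1 : LB 3 (|B| * (ct u b τ * ψ (T 0))) (φ τ ∘ T) (ball 0 r) :=
      LB_mono a1 (ball_subset_ball h2) ((mul_le_mul_of_nonneg_right (le_abs_self B)
        (e1.le.trans e2)).trans (mul_le_mul_of_nonneg_left e3 (abs_nonneg B)))
    have b2 : LB 3 (B' * ψ (T 0)) (ψ ∘ T) (ball 0 r) :=
      LB_congr isOpen_ball (fun x hx => ee x (s0 hx)) (LB_mono a2 (ball_subset_ball h3) le_rfl)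
    have sφ : ContDiffOn ℝ ∞ (φ τ ∘ T) (ball 0 r) := ((R.gf.1.xsm.slice hτ) T _ P).mono s0
    have b3 := LB_const_mul (inv_pos.mpr p0).le (LB_sub isOpen_ball
      (contDiffOn_const.mul sφ) ((c.geo.pot.rf.1 T _ P).mono s0)
      (LB_const_mul (inv_pos.mpr hc).le b1) b2)
    refine LB_mono (LB_scale h0 h1 b3) Subset.rfl (le_of_eq ?_)
    field_simp
  · have h7 := nice_lip hρ nc1 (s0 (sm y hy))
    have h8 : ‖r • y‖ ≤ r := (mem_ball_zero_iff.mp (sm y hy)).le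
    rw [le_div_iff₀ (by positivity)] at h4
    have h9 : Real.log (ψ (T (r • y))) ≤ Real.log 2 + Real.log (ψ (T 0)) := by
      have := Real.log_two_gt_d9
      nlinarith [le_abs_self (N 1), abs_nonneg (N 1), norm_nonneg (r • y),
        mul_le_mul_of_nonneg_left h8 (abs_nonneg (N 1)),
        mul_le_mul_of_nonneg_right (le_abs_self (N 1)) (norm_nonneg (r • y))]
    rw [← Real.log_mul two_ne_zero p0.ne'] at h9
    exact (Real.log_le_log_iff (hpos _ (s0 (sm y hy))) (by positivity)).mp h9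

lemma small (A : ℝ) {δ : ℝ} (hδ : 0 < δ) : ∀ᶠ η in 𝓝[>] (0 : ℝ), η * A ≤ δ := by
  have h : Tendsto (fun η : ℝ => η * A) (𝓝 0) (𝓝 (0 * A)) := tendsto_id.mul_const A
  rw [zero_mul] at h
  exact (h.eventually (ge_mem_nhds hδ)).filter_mono nhdsWithin_le_nhds

lemma XCl_div {d c : ℝ} {φ : C3 → ℝ} {p : C3} (hc : 0 < c) :
    XCl X d (fun q => c⁻¹ * φ q) ψ p ↔ XCl X d φ (fun q => c * ψ q) p := by
  have e1 : ∀ N x, lv ((fun q => c⁻¹ * φ q) ∘ N) x = c⁻¹ • lv (φ ∘ N) x := fun N x =>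
    lv_const_mul _ (φ ∘ N) x
  have e2 : ∀ N x, lv ((fun q => c * ψ q) ∘ N) x = c • lv (ψ ∘ N) x := fun N x =>
    lv_const_mul _ (ψ ∘ N) x
  refine ⟨fun H N U P x hx h => ?_, fun H N U P x hx h => ?_⟩
  · have := (H N U P x hx h).smul hc.le
    rwa [e1, smul_inv_smul₀ hc.ne', ← e2] at this
  · have := (H N U P x hx h).smul (inv_pos.mpr hc).le
    rwa [e2, inv_smul_smul₀ hc.ne', ← e1] at this

theorem inner : rINNER := by
  intro hU hD hF hY X ψ F C θf Kf Cj u c ⟨S, hS, H⟩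
  obtain ⟨d, hd, Λ, M, HN⟩ := nrm hU hD c
  obtain ⟨C2, hC2, HF⟩ := hF C θf Kf c.prof.cst
  obtain ⟨d0, hd0, ρ1, H1⟩ := H Λ M
  refine ⟨min d (d0 / 4), lt_min hd (by positivity), fun ε hε => ?_⟩
  obtain ⟨ε', hε', H2⟩ := H1 ε hε
  obtain ⟨η, ⟨⟨⟨m1, m2⟩, m3, m4⟩, m5, m6⟩, hη⟩ := (((((small (2 + C2) hε).and
    (small (2 + C2) hε')).and ((small (2 * C2) hd0).and (small C2 one_pos))).and
    ((small (4 * C) one_pos).and (small ρ1 one_pos))).and self_mem_nhdsWithin).exists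
  have hη : 0 < η := hη
  refine ⟨η, hη, fun b τ φ R B th t0 t1 hc hy h0 hsh p hp hin => ?_⟩
  have hτ : τ ∈ Icc 0 τ := ⟨R.τ0.1.le, le_rfl⟩
  have O := c.prof.on τ R.τ0
  have hC := c.prof.cst.1
  have c0 : 0 < ct u b τ := mul_pos (O.est.cpos τ hτ).1 (Real.exp_pos _)
  have p0 : ∀ q ∈ X, 0 < ψ q := fun q hq => by linarith [c.one q hq]
  have t2 : C2 * th ≤ η * C2 := by nlinarith
  have t3 : 0 ≤ C2 * th := by positivity
  obtain ⟨f1, f2⟩ := HF X ψ τ u b c.geo.pot O τ hτ th t0 (t2.trans m4)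
  obtain ⟨w, hw⟩ : ∃ w, w = th * (1 - 2 * τ) ^ 2 := ⟨_, rfl⟩
  rw [← hw] at hc hy h0 hsh hin f1 f2
  have w0 : 0 < w := (mul_pos_iff_of_pos_left hη).mp (c0.trans_le hc)
  have i1 : ∀ q, ψ q ≤ w / ct u b τ ↔ ct u b τ * ψ q ≤ w := fun q => le_div_iff₀' c0
  have tr : ∀ d1 d2 : ℝ, 0 ≤ d1 → d1 + C2 * th + d1 * (C2 * th) ≤ d2 → ∀ q ∈ X,
      ct u b τ * ψ q ≤ w → XCl X d1 (φ τ) (FF ψ u b τ) q →
      XCl X d2 (fun q => (ct u b τ)⁻¹ * φ τ q) ψ q := fun d1 d2 h1 h2 q hq h3 h4 =>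
    XCl.mono (d := d1 + C2 * th + d1 * (C2 * th)) ((XCl_div c0).mpr fun N U P x hx e =>
      (h4 N U P x hx e).trans (f1 q hq (p0 q hq) h3 N U P x hx e) h1) h2
      fun N U P x hx _ => (c.geo.pot.rf.2 N U P x hx).1.nn
  have le : ∀ σ, Aut X ψ σ → ∀ q ∈ X, φ τ (σ q) ≤ φ τ q := fun σ hσ =>
    hY X ψ F τ φ σ R.τ0.1 c.geo.mpx c.geo.pot.rf R.gf hσ (fun q hq => by
      rw [R.init _ (hσ.1 hq), R.init _ hq, FF, FF, hσ.2.2 q hq]) τ hτ
  refine (XCl_div c0).mp (H2 _ (w / ct u b τ) ?_ ?_ ?_ ?_ ?_ ?_ ?_ ?_ p hp ((i1 p).mpr hin))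
  · rw [le_div_iff₀ c0]
    rcases le_total ρ1 0 with h | h
    · nlinarith
    · nlinarith [mul_le_mul_of_nonneg_left hc h]
  · exact fun N U P => contDiffOn_const.mul (R.gf.1.xsm.slice hτ N U P)
  · intro σ hσ q hq
    obtain ⟨a1, σ', a2, a3⟩ := hS σ hσ
    have h1 := le σ' a2 _ (a1.1 hq)
    rw [a3 q hq] at h1
    rw [le_antisymm (le σ a1 q hq) h1]
  · intro q hq h
    have h1 := min_le_right d (d0 / 4)
    have h2 : 0 < min d (d0 / 4) := lt_min hd (by positivity)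
    exact tr _ _ h2.le (by nlinarith) q hq ((i1 q).mp h) (B τ hτ q hq)
  · intro q hq h h'
    refine tr η ε hη.le (by nlinarith) q hq ((i1 q).mp h') (hsh q hq ?_ ((i1 q).mp h'))
    rw [div_right_comm, div_le_iff₀' c0] at h
    exact h
  · intro q hq h N U P x hx e
    have h1 := hy q hq ((i1 q).mp h) N U P x hx e
    have h2 := ((R.gf.1 N U P).pos τ hτ x hx).det
    have h3 : lv ((fun q => (ct u b τ)⁻¹ * φ τ q) ∘ N) x = (ct u b τ)⁻¹ • lv (φ τ ∘ N) x :=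
      lv_const_mul _ (φ τ ∘ N) x
    rw [h3, hdet_smul, Real.log_mul (by positivity) h2.ne', Real.log_pow, Real.log_inv,
      Real.log_one]
    refine le_trans (le_of_eq ?_) (h1.trans (by nlinarith))
    congr 1
    push_cast
    ring
  · intro q hq q' hq' h h'
    have h1 := (abs_le.mp (h0 q hq)).2
    have h2 := (abs_le.mp (h0 q' hq')).1
    have h3 := (abs_le.mp (f2 q hq q' hq' (p0 q hq) (p0 q' hq') ((i1 q).mp h) ((i1 q').mp h'))).2
    have h4 : (2 * η + C2 * th) * w ≤ ε' * w := mul_le_mul_of_nonneg_right (by linarith) w0.le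
    rw [← mul_div_assoc, le_div_iff₀ c0]
    have e : ((ct u b τ)⁻¹ * φ τ q - ψ q - ((ct u b τ)⁻¹ * φ τ q' - ψ q')) * ct u b τ =
        φ τ q - ct u b τ * ψ q - (φ τ q' - ct u b τ * ψ q') := by field_simp
    rw [e]
    linarith
  · intro q hq h
    refine HN b τ φ R _ (lt_min hd (by positivity)) (min_le_left _ _) B th (by nlinarith)
      (by nlinarith) q hq ?_
    rw [← hw]
    exact (i1 q).mp (h.trans (half_le_self (div_pos w0 c0).le))

end

end Pool.Agent.MP_67f0e4_gt.H73.In
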