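import Pool.Agent.MP_67f0e4_gt.H73.Red
import Pool.Agent.MP_67f0e4_gt.H71.Osc

/-! The oscillation estimate transported to `ℝ × ℂ`. -/

namespace Pool.Agent.MP_67f0e4_gt.H73

open Set Filter Topology Metric

noncomputable section

abbrev E3 : Type := WithLp 2 (ℝ × ℂ)

def toP : E3 ≃L[ℝ] P := WithLp.prodContinuousLinearEquiv 2 ℝ ℝ ℂ

lemma rank_E3 : Module.finrank ℝ E3 = 3 := by
  rw [toP.toLinearEquiv.finrank_eq, Module.finrank_prod, Module.finrank_self,
    Complex.finrank_real_complex]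

lemma norm_sub_c (y : E3) (c : ℂ) : ‖y - WithLp.toLp 2 ((0 : ℝ), c)‖ = rr c (toP y) := by
  rw [WithLp.prod_norm_eq_of_L2, rr]
  simp [toP]

lemma norm_E3 (y : E3) : ‖y‖ = rr 0 (toP y) := by
  rw [WithLp.prod_norm_eq_of_L2, rr]
  simp [toP]

lemma lap_toP {W : P → ℝ} {y : E3} (h : ContDiffAt ℝ 2 W (toP y)) :
    H71.lap (fun u => W (toP u)) y = lap W (toP y) := by
  have h0 : ContDiffAt ℝ 2 (fun u => W (toP u)) y := h.comp y toP.contDiff.contDiffAt
  have h1 : ∀ e : E3, H71.d2 (fun u => W (toP u)) y e = D2 W (toP y) (toP e) (toP e) := by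
    intro e
    have h2 := D2_clm (toP : E3 →L[ℝ] P) (x := y) h e e
    have h3 := D2_eq h0 e e (Eventually.of_forall fun _ => rfl)
      (H71.d1_diff h0 e).hasFDerivAt
    exact h3.symm.trans h2
  rw [← H71.lap_eq h0, H71.lap_onb
    ((OrthonormalBasis.singleton Unit ℝ).prod Complex.orthonormalBasisOneI) h0]
  simp only [h1, Fintype.sum_sum_type, Fin.sum_univ_two, Fintype.sum_unique, lap, add_assoc]
  simp [toP, e0, e1, e2]

theorem oscP : ∃ C : ℝ, 0 < C ∧ ∀ (n : ℕ) (a : Fin n → ℂ) (ζ : ℂ) (W : P → ℝ) (R₀ g A : ℝ),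
    Function.Injective a → ‖ζ‖ = 1 → ζ ≠ 1 → 0 ≤ g → Continuous W →
    (∀ q, rr 0 q < R₀ → (∀ j, 0 < rr (a j) q) →
      ContDiffAt ℝ 2 W q ∧ |lap W q| ≤ g * (2 * VV a q)) →
    (∀ q : P, W (-q.1, q.2) = W q) → (∀ q : P, W (q.1, ζ * q.2) = W q) →
    (∀ p q, rr 0 p ≤ R₀ → rr 0 q ≤ R₀ → W p - W q ≤ A * R₀) →
    ∀ r, 0 < r → r ≤ R₀ → ∀ p q, rr 0 p ≤ r → rr 0 q ≤ r → W p - W q ≤ C * (A + n * g) * r := by
  classical
  obtain ⟨C, hC, H⟩ := H71.osc rank_E3
  refine ⟨C, hC, ?_⟩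
  intro n a ζ W R₀ g A ha hζ hζ1 hg hW hl h1 h2 hA r hr hrR p q hp hq
  have inj : Function.Injective fun j => (WithLp.toLp 2 ((0 : ℝ), a j) : E3) := by
    intro i j hij
    exact ha (congrArg (fun y : E3 => (toP y).2) hij)
  let u : Circle := ⟨ζ, by simpa [Submonoid.unitSphere] using hζ⟩
  have key := H (Finset.univ.image fun j => (WithLp.toLp 2 ((0 : ℝ), a j) : E3))
    (fun y => W (toP y)) R₀ g A
    (LinearIsometryEquiv.withLpProdCongr 2 (LinearIsometryEquiv.neg ℝ)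
      (LinearIsometryEquiv.refl ℝ ℂ))
    (LinearIsometryEquiv.withLpProdCongr 2 (LinearIsometryEquiv.refl ℝ ℝ) (rotation u))
    hg (hW.comp toP.continuous).continuousOn ?_ ?_ ?_ ?_ r hr hrR (toP.symm p) ?_ (toP.symm q) ?_
  · rw [Finset.card_image_of_injective _ inj] at key
    simpa using key
  · intro y hy hS
    have h3 : ∀ j, 0 < rr (a j) (toP y) := fun j => by
      rw [← norm_sub_c, norm_pos_iff, sub_ne_zero]
      intro h
      exact hS (Finset.mem_image.mpr ⟨j, Finset.mem_univ _, h.symm⟩)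
    obtain ⟨h4, h5⟩ := hl (toP y) (by rw [← norm_E3]; simpa using hy) h3
    refine ⟨h4.comp y toP.contDiff.contDiffAt, ?_⟩
    rw [lap_toP h4, Finset.sum_image fun i _ j _ h => inj h]
    refine h5.trans_eq ?_
    rw [VV, Finset.mul_sum]
    congr 1
    exact Finset.sum_congr rfl fun j _ => by rw [norm_sub_c]; ring
  · intro v hv1 hv2
    have k1 : -(toP v).1 = (toP v).1 := congrArg (fun y : E3 => (toP y).1) hv1
    have k2 : ζ * (toP v).2 = (toP v).2 := congrArg (fun y : E3 => (toP y).2) hv2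
    have k3 : (toP v).2 = 0 := by
      have : (ζ - 1) * (toP v).2 = 0 := by rw [sub_mul, k2]; ring
      exact (mul_eq_zero.mp this).resolve_left (sub_ne_zero.mpr hζ1)
    have k4 : toP v = 0 := Prod.ext (by simp only [Prod.fst_zero]; linarith) k3
    exact toP.map_eq_zero_iff.mp k4
  · intro y _
    exact ⟨h1 (toP y), h2 (toP y)⟩
  · intro x hx y hy
    exact hA _ _ (by rw [← norm_E3]; simpa using hx) (by rw [← norm_E3]; simpa using hy)
  · rw [mem_closedBall_zero_iff, norm_E3]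
    simpa using hp
  · rw [mem_closedBall_zero_iff, norm_E3]
    simpa using hq

end

end Pool.Agent.MP_67f0e4_gt.H73
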